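import Pool.Agent.R296.SM.NormU
import Pool.Agent.R296.SM.Half

/-!
# Möbius disjointness for automorphisms of C*-algebras whose invariant states have spectra of small dimension
-/

set_option autoImplicit false

open Filter Topology Finset MeasureTheory

namespace Pool.Agent.Results.MP_7a8f48_an.InvariantSpectraHalf

universe u v

/-- the Möbius function -/
def mu (n : ℕ) : ℤ := ArithmeticFunction.moebius n

/-- the Liouville function -/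
def lam (n : ℕ) : ℤ := (-1) ^ ArithmeticFunction.cardFactors n

/-- `K ⊆ ℝ/ℤ` has upper box dimension less than one half: for some `s < 1/2` and `C` and all `n ≥ 1` it is
covered by at most `C n ^ s` arcs of radius `1 / n` -/
def BelowHalf (K : Set UnitAddCircle) : Prop :=
  ∃ C s : ℝ, s < 1 / 2 ∧ ∀ n : ℕ, 1 ≤ n → ∃ S : Finset UnitAddCircle, (S.card : ℝ) ≤ C * (n : ℝ) ^ s ∧
    ∀ x ∈ K, ∃ y ∈ S, ‖x - y‖ ≤ 1 / n

section defs

variable {A : Type u} [NonUnitalCStarAlgebra A]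

/-- positive functionals -/
def Positive (φ : A →L[ℂ] ℂ) : Prop := ∀ a, 0 ≤ (φ (star a * a)).re ∧ (φ (star a * a)).im = 0

/-- `φ` is invariant under the automorphism `α` -/
def Invariant (α : A ≃⋆ₐ[ℂ] A) (φ : A →L[ℂ] ℂ) : Prop := ∀ a, φ (α a) = φ a

/-- `φ` is a weak* cluster point, for `N → ∞`, of the averages `(1/N) ∑_{n ≤ N} ρ ∘ αⁿ` of the elements `ρ` of
`R` -/
def ClusterPoint (α : A ≃⋆ₐ[ℂ] A) (R : Set (A → ℂ)) (φ : A →L[ℂ] ℂ) : Prop :=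
  ∀ (F : Finset A) (ε : ℝ), 0 < ε → ∀ N₀ : ℕ, ∃ N ≥ N₀, ∃ ρ ∈ R, ∀ a ∈ F,
    ‖(1 / (N : ℂ)) * ∑ n ∈ Icc 1 N, ρ ((α ^ n) a) - φ a‖ < ε

/-- `σ` is the spectral measure of `x` for the invariant positive functional `φ`: the finite measure on
`ℝ/ℤ` with `φ (x* αᵏ(x)) = ∫ exp(2 π i k η) dσ(η)` for `k ≥ 0` -/
def IsSpectralMeasure (α : A ≃⋆ₐ[ℂ] A) (φ : A →L[ℂ] ℂ) (x : A) (σ : Measure UnitAddCircle) : Prop :=
  IsFiniteMeasure σ ∧ ∀ k : ℕ, φ (star x * (α ^ k) x) = ∫ η, (fourier (k : ℤ) η : ℂ) ∂σ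

/-- the spectral measure of `x` for `φ` is carried by a countable union of sets of upper box dimension less
than one half (for example by a countable set) -/
def SmallAt (α : A ≃⋆ₐ[ℂ] A) (φ : A →L[ℂ] ℂ) (x : A) : Prop :=
  ∃ σ : Measure UnitAddCircle, IsSpectralMeasure α φ x σ ∧
    ∃ K : ℕ → Set UnitAddCircle, (∀ i, BelowHalf (K i)) ∧ σ (⋃ i, K i)ᶜ = 0

end defs

/-- the sum of `h m e(mθ) y m` over the `m` in `S`, where `e(t) = exp(2 π i t)` -/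
noncomputable def twistedSum {X : Type v} [NormedAddCommGroup X] [NormedSpace ℂ X] (h : ℕ → ℤ) (θ : ℝ)
    (S : Finset ℕ) (y : ℕ → X) : X :=
  ∑ m ∈ S, ((h m : ℂ) * Complex.exp (2 * Real.pi * Complex.I * m * θ)) • y m

/-- The sequences `y i` are disjoint from `h`, uniformly in `i` and in the twist: in mean square over the windows
of length `H`, and for the long averages. -/
def UniformlyDisjoint {ι : Type u} {X : Type v} [NormedAddCommGroup X] [NormedSpace ℂ X] (h : ℕ → ℤ)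
    (y : ι → ℕ → X) : Prop :=
  ∀ ε : ℝ, 0 < ε →
    (∃ H0 : ℕ, ∀ H ≥ H0, ∀ N ≥ H, ∀ (θ : ℝ) (i : ι),
      ∑ n ∈ range N, ‖twistedSum h θ (Ioc n (n + H)) (y i)‖ ^ 2 ≤ ε * H ^ 2 * N) ∧
    ∃ N0 : ℕ, ∀ N ≥ N0, ∀ (θ : ℝ) (i : ι), ‖twistedSum h θ (Icc 1 N) (y i)‖ ≤ ε * N

/-- the twisted sum of `αᵐ(x)` over the `m` in `S` -/
noncomputable def orbitSum {A : Type u} [NonUnitalCStarAlgebra A] (α : A ≃⋆ₐ[ℂ] A) (h : ℕ → ℤ) (θ : ℝ)
    (S : Finset ℕ) (x : A) : A :=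
  twistedSum h θ S (fun m => (α ^ m) x)

/-- the sum of `W(n)* W(n)` over `n < N`, where `W(n)` is the twisted sum over the window `(n, n + H]` -/
noncomputable def windowSquares {A : Type u} [NonUnitalCStarAlgebra A] (α : A ≃⋆ₐ[ℂ] A) (h : ℕ → ℤ) (θ : ℝ)
    (H N : ℕ) (x : A) : A :=
  ∑ n ∈ range N, star (orbitSum α h θ (Ioc n (n + H)) x) * orbitSum α h θ (Ioc n (n + H)) x

/-- The orbit of `x` is disjoint from `h` in norm, uniformly in the twist: the long averages tend to zero in norm,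
and the mean squares `∑_{n < N} W(n)* W(n)` over the windows of length `H` are small in norm. -/
def NormDisjoint {A : Type u} [NonUnitalCStarAlgebra A] (α : A ≃⋆ₐ[ℂ] A) (h : ℕ → ℤ) (x : A) : Prop :=
  ∀ ε : ℝ, 0 < ε →
    (∃ H0 : ℕ, ∀ H ≥ H0, ∀ N ≥ H, ∀ θ : ℝ,
      ‖windowSquares α h θ H N x‖ ≤ ε * H ^ 2 * N) ∧
    ∃ N0 : ℕ, ∀ N ≥ N0, ∀ θ : ℝ, ‖orbitSum α h θ (Icc 1 N) x‖ ≤ ε * N

/-- uniform disjointness from the Möbius and the Liouville function -/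
def Disjoint' {ι : Type u} {X : Type v} [NormedAddCommGroup X] [NormedSpace ℂ X] (y : ι → ℕ → X) : Prop :=
  UniformlyDisjoint mu y ∧ UniformlyDisjoint lam y

/-- the vector functionals `a ↦ ⟨ξ, π(a) ξ⟩` of the `ξ` in `Ξ` -/
def VectorFunctionals {A : Type u} [NonUnitalCStarAlgebra A] {K : Type v} [NormedAddCommGroup K]
    [InnerProductSpace ℂ K] [CompleteSpace K] (π : A →⋆ₙₐ[ℂ] (K →L[ℂ] K)) (Ξ : Set K) : Set (A → ℂ) :=
  {ρ | ∃ ξ ∈ Ξ, ρ = fun a => (inner ℂ ξ (π a ξ) : ℂ)}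

/-- the functionals in `S`, as functions -/
def Functions {B : Type u} [CStarAlgebra B] (S : Set (B →L[ℂ] ℂ)) : Set (B → ℂ) := {r | ∃ ρ ∈ S, r = ⇑ρ}

/-- the sequences `ρ(b βⁿ(x))`, for `ρ` in `S` and `b` in the unit ball -/
noncomputable def Values {B : Type u} [CStarAlgebra B] (β : B ≃⋆ₐ[ℂ] B) (S : Set (B →L[ℂ] ℂ)) (x : B)
    (p : S × {b : B // ‖b‖ ≤ 1}) (n : ℕ) : ℂ :=
  p.1.1 (p.2.1 * (β ^ n) x)

/-- (A) Let `Ξ` be a bounded set of vectors of a representation `π` and let `D` be a set of elements whose spectral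
measures are small for each invariant cluster point of the averages of the vector functionals of the `ξ` in `Ξ`.
Then the sequences of vectors `π(αⁿ(x)) ξ` are disjoint, uniformly for `ξ` in `Ξ`, for each `x` in the closed span
of `D`. -/
def PartA {A : Type u} [NonUnitalCStarAlgebra A] (α : A ≃⋆ₐ[ℂ] A) : Prop :=
  ∀ (K : Type v) [NormedAddCommGroup K] [InnerProductSpace ℂ K] [CompleteSpace K]
    (π : A →⋆ₙₐ[ℂ] (K →L[ℂ] K)) (Ξ : Set K) (R : ℝ) (D : Set A), (∀ ξ ∈ Ξ, ‖ξ‖ ≤ R) →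
    (∀ φ : A →L[ℂ] ℂ, Positive φ → Invariant α φ →
      ClusterPoint α (VectorFunctionals π Ξ) φ → ∀ x ∈ D, SmallAt α φ x) →
    ∀ x ∈ closure (Submodule.span ℂ D : Set A),
      Disjoint' (fun (ξ : Ξ) n => π ((α ^ n) x) ξ.1)

/-- (B) Let `S` be a bounded set of positive functionals on a unital algebra and let `D` be a set of elements whose
spectral measures are small for each invariant cluster point of the averages of the `ρ` in `S`. Then `ρ(b αⁿ(x))`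
is disjoint, uniformly for `ρ` in `S` and `b` in the unit ball, for each `x` in the closed span of `D`. -/
def PartB {B : Type u} [CStarAlgebra B] (β : B ≃⋆ₐ[ℂ] B) : Prop :=
  ∀ (S : Set (B →L[ℂ] ℂ)) (R : ℝ) (D : Set B), (∀ ρ ∈ S, Positive ρ ∧ ‖ρ‖ ≤ R) →
    (∀ φ : B →L[ℂ] ℂ, Positive φ → Invariant β φ → ClusterPoint β (Functions S) φ →
      ∀ x ∈ D, SmallAt β φ x) →
    ∀ x ∈ closure (Submodule.span ℂ D : Set B),
      Disjoint' (Values β S x)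

/-- Möbius disjointness as in the problem, for all bounded functionals -/
def MobiusDisjoint {A : Type u} [NonUnitalCStarAlgebra A] (α : A ≃⋆ₐ[ℂ] A) : Prop :=
  ∀ (x : A) (ρ : A →L[ℂ] ℂ), Tendsto (fun N : ℕ => (1 / (N : ℂ)) *
      ∑ n ∈ Icc 1 N, ((ArithmeticFunction.moebius n : ℤ) : ℂ) * ρ ((α ^ n) x)) atTop (𝓝 0)

/-- (C) Let `D` be a set with dense span, such that the spectral measures of the elements of `D` are small
for each invariant positive functional. Then `α` is Möbius disjoint, and the orbit of each element is disjoint in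
norm. -/
def PartC {A : Type u} [NonUnitalCStarAlgebra A] (α : A ≃⋆ₐ[ℂ] A) : Prop :=
  ∀ D : Set A, Dense (Submodule.span ℂ D : Set A) →
    (∀ φ : A →L[ℂ] ℂ, Positive φ → Invariant α φ → ∀ x ∈ D, SmallAt α φ x) →
    MobiusDisjoint α ∧ ∀ x : A, NormDisjoint α mu x ∧ NormDisjoint α lam x

open Pool.Agent.R296.SM

theorem range_le {h : ℕ → ℤ} (hh : ∀ n, |h n| ≤ 1) : ∀ g ∈ Set.range (tws h), ∀ n, ‖g n‖ ≤ 1 := by
  rintro _ ⟨θ, rfl⟩ n
  exact norm_tws hh θ n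

theorem disjoint_of_DjU {ι : Type u} {K : Type v} [NormedAddCommGroup K] [InnerProductSpace ℂ K]
    {h : ℕ → ℤ} (hh : ∀ n, |h n| ≤ 1) {w : ι → ℤ → K} {M : ℝ} (hM : ∀ i m, ‖w i m‖ ≤ M)
    (hw : DjU ∅ (Set.range (tws h)) w) (y : ι → ℕ → K) (hy : ∀ i, ∀ n : ℕ, w i n = y i n) :
    UniformlyDisjoint h y := by
  intro ε hε
  obtain ⟨H₀, h1⟩ := hw.win (range_le hh) hM ε hε
  obtain ⟨N₀, h2⟩ := hw.long (range_le hh) hM ε hε
  refine ⟨⟨H₀, fun H hH N hN θ i => ?_⟩, ⟨N₀, fun N hN θ i => ?_⟩⟩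
  · refine le_trans (le_of_eq ?_) (h1 H hH N hN _ ⟨(θ : UnitAddCircle), rfl⟩ i)
    refine sum_congr rfl fun x _ => ?_
    unfold twistedSum
    rw [conv_Ioc h θ (w i) (y i) (hy i)]
  · unfold twistedSum
    rw [conv_Icc h θ (w i) (y i) (hy i)]
    exact h2 N hN (Set.notMem_empty N) _ ⟨_, rfl⟩ i

/-- the weight is isolated from the sets of small dimension -/
def Iso (f : ℕ → ℤ) : Prop :=
  ∀ (σ : Measure UnitAddCircle) [IsFiniteMeasure σ] (K : ℕ → Set UnitAddCircle), (∀ i, BelowHalf (K i)) →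
    σ (⋃ i, K i)ᶜ = 0 → ∀ δ : ℝ, 0 < δ → Isolates ∅ (Set.range (tws f)) σ δ

theorem DjU_A {f : ℕ → ℤ} (hf : ∀ n, |f n| ≤ 1) (hS : Iso f) {A : Type u}
    [NonUnitalCStarAlgebra A] (α : A ≃⋆ₐ[ℂ] A) {K : Type v} [NormedAddCommGroup K] [InnerProductSpace ℂ K]
    [CompleteSpace K] (π : A →⋆ₙₐ[ℂ] (K →L[ℂ] K)) {ι : Type v} (Ξ : ι → K) (R : ℝ) (hR : ∀ i, ‖Ξ i‖ ≤ R) (D : Set A)
    (hD : ∀ φ : A →L[ℂ] ℂ, Positive φ → Invariant α φ → CluU α (fun i => rr π (Ξ i)) φ → ∀ x ∈ D, SmallAt α φ x)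
    (x : A) (hx : x ∈ closure (Submodule.span ℂ D : Set A)) :
    DjU ∅ (Set.range (tws f)) (fun i => yy α π (Ξ i) x) := by
  refine DjU_closure α hR (range_le hf) (fun u hu => ?_) hx
  refine DjU_orbit α hR ∅ _ (range_le hf) u fun φ h1 h2 h3 => ?_
  obtain ⟨σ, ⟨hσ1, hσ2⟩, S, hS1, hS2⟩ := hD φ (fun a => by
    obtain ⟨e1, e2⟩ := Complex.nonneg_iff.1 (h1 a)
    exact ⟨e1, e2.symm⟩) h2 h3 u hu
  exact ⟨σ, hσ1, hσ2, fun δ hδ => hS σ S hS1 hS2 δ hδ⟩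

theorem partA_of {f : ℕ → ℤ} (hf : ∀ n, |f n| ≤ 1) (hS : Iso f) {A : Type u} [NonUnitalCStarAlgebra A]
    (α : A ≃⋆ₐ[ℂ] A) (K : Type v) [NormedAddCommGroup K] [InnerProductSpace ℂ K] [CompleteSpace K]
    (π : A →⋆ₙₐ[ℂ] (K →L[ℂ] K)) (Ξ : Set K) (R : ℝ) (D : Set A) (hR : ∀ ξ ∈ Ξ, ‖ξ‖ ≤ R)
    (hD : ∀ φ : A →L[ℂ] ℂ, Positive φ → Invariant α φ →
      ClusterPoint α (VectorFunctionals π Ξ) φ → ∀ x ∈ D, SmallAt α φ x)
    (x : A) (hx : x ∈ closure (Submodule.span ℂ D : Set A)) :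
    UniformlyDisjoint f (fun (ξ : Ξ) n => π ((α ^ n) x) ξ.1) := by
  have hR' : ∀ ξ : Ξ, ‖ξ.1‖ ≤ R := fun ξ => hR ξ.1 ξ.2
  have h1 := DjU_A hf hS α π (fun ξ : Ξ => ξ.1) R hR' D (fun φ h1 h2 h3 => hD φ h1 h2 (by
    intro F ε hε N₀
    obtain ⟨N, hN, i, hi⟩ := h3 F ε hε N₀
    exact ⟨N, hN, _, ⟨i.1, i.2, rfl⟩, hi⟩)) x hx
  refine disjoint_of_DjU hf (M := R * ‖x‖) (fun ξ m => ?_) h1 _ fun ξ n => ?_
  · exact (yy_le α π ξ.1 x m).trans (mul_le_mul_of_nonneg_right (hR' ξ) (norm_nonneg _))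
  · simp [yy]

theorem partB_of {f : ℕ → ℤ} (hf : ∀ n, |f n| ≤ 1) (hS : Iso f) {B : Type u} [CStarAlgebra B]
    (β : B ≃⋆ₐ[ℂ] B) (S : Set (B →L[ℂ] ℂ)) (R : ℝ) (D : Set B) (hR : ∀ ρ ∈ S, Positive ρ ∧ ‖ρ‖ ≤ R)
    (hD : ∀ φ : B →L[ℂ] ℂ, Positive φ → Invariant β φ → ClusterPoint β (Functions S) φ →
      ∀ x ∈ D, SmallAt β φ x) (x : B) (hx : x ∈ closure (Submodule.span ℂ D : Set B)) :
    UniformlyDisjoint f (Values β S x) := by
  obtain ⟨K, _, _, _, π, ξ, hξ⟩ := exists_gnsU B S (fun ρ hρ a => by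
    obtain ⟨e1, e2⟩ := (hR ρ hρ).1 a
    exact Complex.nonneg_iff.2 ⟨e1, e2.symm⟩)
  have hone : ‖(1 : B)‖ ≤ 1 := by
    rcases subsingleton_or_nontrivial B with h | h
    · rw [Subsingleton.elim (1 : B) 0, norm_zero]; norm_num
    · rw [CStarRing.norm_one]
  have hn : ∀ ρ : S, ‖ξ ρ‖ ≤ R + 1 := by
    intro ρ
    have h1 : (inner ℂ (ξ ρ) (ξ ρ) : ℂ) = ρ.1 1 := by
      have := hξ ρ 1
      rw [map_one] at this
      exact this
    rw [inner_self_eq_norm_sq_to_K] at h1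
    have h2 : ‖ξ ρ‖ ^ 2 = ‖ρ.1 1‖ := by
      rw [← h1]
      norm_cast
      rw [abs_of_nonneg (sq_nonneg _)]
    have h3 : ‖ρ.1 1‖ ≤ R := by
      refine (ρ.1.le_opNorm 1).trans ?_
      calc ‖ρ.1‖ * ‖(1 : B)‖ ≤ ‖ρ.1‖ * 1 := mul_le_mul_of_nonneg_left hone (norm_nonneg _)
        _ ≤ R := by rw [mul_one]; exact (hR ρ.1 ρ.2).2
    nlinarith [norm_nonneg (ξ ρ), sq_nonneg (‖ξ ρ‖ - 1)]
  have h1 := DjU_A hf hS β (π : B →⋆ₙₐ[ℂ] (K →L[ℂ] K)) ξ (R + 1) hn D (fun φ h1 h2 h3 => hD φ h1 h2 (by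
    intro F ε hε N₀
    obtain ⟨N, hN, i, hi⟩ := h3 F ε hε N₀
    refine ⟨N, hN, _, ⟨i.1, i.2, rfl⟩, fun a ha => ?_⟩
    have h4 : ‖av β (rr (π : B →⋆ₙₐ[ℂ] (K →L[ℂ] K)) (ξ i)) N a - φ a‖ < ε := hi a ha
    have h5 : rr (π : B →⋆ₙₐ[ℂ] (K →L[ℂ] K)) (ξ i) = ⇑i.1 := by
      funext a
      exact hξ i a
    rw [h5] at h4
    exact h4)) x hx
  have hb : ∀ p : S × {b : B // ‖b‖ ≤ 1}, ‖π (star p.2.1) (ξ p.1)‖ ≤ R + 1 := by
    intro p
    refine (pi_le (π : B →⋆ₙₐ[ℂ] (K →L[ℂ] K)) (ξ p.1) _).trans ?_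
    rw [norm_star]
    have h2 : ‖p.2.1‖ ≤ 1 := p.2.2
    calc ‖ξ p.1‖ * ‖p.2.1‖ ≤ ‖ξ p.1‖ * 1 := mul_le_mul_of_nonneg_left h2 (norm_nonneg _)
      _ ≤ R + 1 := by rw [mul_one]; exact hn p.1
  refine disjoint_of_DjU hf (M := (R + 1) * ((R + 1) * ‖x‖)) (fun p m => ?_)
    (h1.map (fun p : S × {b : B // ‖b‖ ≤ 1} => p.1) (fun p => π (star p.2.1) (ξ p.1)) (R + 1) hb) _
    fun p n => ?_
  · refine (norm_inner_le_norm _ _).trans (mul_le_mul (hb p) ?_ (norm_nonneg _) ((norm_nonneg _).trans (hb p)))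
    exact (yy_le β (π : B →⋆ₙₐ[ℂ] (K →L[ℂ] K)) (ξ p.1) x m).trans (mul_le_mul_of_nonneg_right (hn p.1) (norm_nonneg _))
  · simp only [yy, Int.toNat_natCast, Values]
    rw [← hξ, map_mul, map_star]
    show inner ℂ _ (π ((β ^ n) x) (ξ p.1)) = inner ℂ (ξ p.1) ((π p.2.1) (π ((β ^ n) x) (ξ p.1)))
    rw [ContinuousLinearMap.star_eq_adjoint, ContinuousLinearMap.adjoint_inner_left]

theorem norm_of {f : ℕ → ℤ} (hf : ∀ n, |f n| ≤ 1) (hS : Iso f) {A : Type u} [NonUnitalCStarAlgebra A]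
    (α : A ≃⋆ₐ[ℂ] A) (D : Set A)
    (hD : ∀ φ : A →L[ℂ] ℂ, Positive φ → Invariant α φ → ∀ x ∈ D, SmallAt α φ x)
    (x : A) (hx : x ∈ closure (Submodule.span ℂ D : Set A)) : NormDisjoint α f x := by
  obtain ⟨K, _, _, _, π, hπ⟩ := exists_faithful A
  have h1 := DjU_A hf hS α π (fun ξ : {ξ : K // ‖ξ‖ ≤ 1} => ξ.1) 1 (fun ξ => ξ.2) D
    (fun φ h1 h2 _ => hD φ h1 h2) x hx
  have hM : ∀ (ξ : {ξ : K // ‖ξ‖ ≤ 1}) (m : ℤ), ‖yy α π ξ.1 x m‖ ≤ 1 * ‖x‖ := fun ξ m =>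
    (yy_le α π ξ.1 x m).trans (mul_le_mul_of_nonneg_right ξ.2 (norm_nonneg _))
  intro ε hε
  obtain ⟨H₀, h2⟩ := h1.win (range_le hf) hM ε hε
  obtain ⟨N₀, h3⟩ := h1.long (range_le hf) hM ε hε
  have hpi : ∀ (S : Finset ℕ) (θ : ℝ) (ξ : K), π (twistedSum f θ S (fun m => (α ^ m) x)) ξ =
      ∑ m ∈ S, ((f m : ℂ) * Complex.exp (2 * Real.pi * Complex.I * m * θ)) • π ((α ^ m) x) ξ := by
    intro S θ ξ
    unfold twistedSum
    rw [map_sum, _root_.sum_apply]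
    exact sum_congr rfl fun m _ => by rw [map_smul]; rfl
  refine ⟨⟨H₀, fun H hH N hN θ => ?_⟩, ⟨N₀, fun N hN θ => ?_⟩⟩
  · rw [← hπ, windowSquares, map_sum]
    simp_rw [map_mul, map_star]
    refine norm_sq_ops _ _ _ (by positivity) fun ξ hξ => ?_
    refine le_trans (le_of_eq ?_) (h2 H hH N hN _ ⟨(θ : UnitAddCircle), rfl⟩ ⟨ξ, hξ⟩)
    refine sum_congr rfl fun n _ => ?_
    rw [orbitSum, hpi, conv_Ioc f θ (yy α π ξ x) _ (fun n => by simp [yy])]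
  · rw [← hπ]
    refine norm_op_le _ _ (by positivity) fun ξ hξ => ?_
    rw [orbitSum, hpi, conv_Icc f θ (yy α π ξ x) _ (fun n => by simp [yy])]
    exact h3 N hN (Set.notMem_empty N) _ ⟨(θ : UnitAddCircle), rfl⟩ ⟨ξ, hξ⟩

theorem mob_of {A : Type u} [NonUnitalCStarAlgebra A] {α : A ≃⋆ₐ[ℂ] A} (h : ∀ x : A, NormDisjoint α mu x) :
    MobiusDisjoint α := by
  intro x ρ
  rw [Metric.tendsto_atTop]
  intro ε hε
  obtain ⟨N₀, h0⟩ := (h x (ε / (2 * (‖ρ‖ + 1))) (by positivity)).2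
  refine ⟨max N₀ 1, fun N hN => ?_⟩
  have h1 := h0 N (le_trans (le_max_left _ _) hN) 0
  unfold orbitSum twistedSum mu at h1
  have hN1 : (1 : ℝ) ≤ N := by exact_mod_cast le_trans (le_max_right _ _) hN
  simp only [Complex.ofReal_zero, mul_zero, Complex.exp_zero, mul_one] at h1
  rw [dist_zero_right]
  have e : ∑ n ∈ Icc 1 N, ((ArithmeticFunction.moebius n : ℤ) : ℂ) * ρ ((α ^ n) x) =
      ρ (∑ n ∈ Icc 1 N, ((ArithmeticFunction.moebius n : ℤ) : ℂ) • (α ^ n) x) := by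
    rw [map_sum]
    exact Finset.sum_congr rfl fun n _ => by rw [map_smul, smul_eq_mul]
  rw [e, norm_mul, norm_div, norm_one, Complex.norm_natCast]
  calc 1 / (N : ℝ) * ‖ρ (∑ n ∈ Icc 1 N, ((ArithmeticFunction.moebius n : ℤ) : ℂ) • (α ^ n) x)‖
      ≤ 1 / (N : ℝ) * (‖ρ‖ * (ε / (2 * (‖ρ‖ + 1)) * N)) := by
        gcongr
        exact (ρ.le_opNorm _).trans (mul_le_mul_of_nonneg_left h1 (norm_nonneg _))
    _ = ε / 2 * (‖ρ‖ / (‖ρ‖ + 1)) := by field_simp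
    _ ≤ ε / 2 * 1 := by
        gcongr
        rw [div_le_one (by positivity)]
        linarith
    _ < ε := by linarith

/-- **Möbius disjointness for automorphisms of C*-algebras whose invariant states have spectra of small
dimension.** (A), (B), (C) hold for all automorphisms of all C*-algebras. -/
theorem result :
    (∀ (A : Type u) [NonUnitalCStarAlgebra A] (α : A ≃⋆ₐ[ℂ] A), PartA.{u, v} α ∧ PartC.{u} α) ∧
    ∀ (B : Type u) [CStarAlgebra B] (β : B ≃⋆ₐ[ℂ] B), PartB.{u} β := by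
  have hmu : ∀ n, |mu n| ≤ 1 := fun n => ArithmeticFunction.abs_moebius_le_one
  have hlam : ∀ n, |lam n| ≤ 1 := fun n => by
    unfold lam
    rw [abs_pow, abs_neg, abs_one, one_pow]
  have h1 : Iso mu := fun σ _ K hK hσ δ hδ => iso_half good_mu hK hσ δ hδ
  have h2 : Iso lam := fun σ _ K hK hσ δ hδ => by
    have e : Pool.Agent.TH327.Dim.laf = fun n => (lam n : ℂ) := by
      funext n
      unfold Pool.Agent.TH327.Dim.laf lam
      push_cast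
      rfl
    have := iso_half good_la hK hσ δ hδ
    rw [e] at this
    exact this
  refine ⟨fun A _ α => ⟨fun K _ _ _ π Ξ R D hR hD x hx => ?_, fun D hD hφ => ?_⟩,
    fun B _ β S R D hR hD x hx => ?_⟩
  · exact ⟨partA_of hmu h1 α K π Ξ R D hR hD x hx, partA_of hlam h2 α K π Ξ R D hR hD x hx⟩
  · have h3 : ∀ x, NormDisjoint α mu x := fun x => norm_of hmu h1 α D hφ x (hD x)
    exact ⟨mob_of h3, fun x => ⟨h3 x, norm_of hlam h2 α D hφ x (hD x)⟩⟩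
  · exact ⟨partB_of hmu h1 β S R D hR hD x hx, partB_of hlam h2 β S R D hR hD x hx⟩

end Pool.Agent.Results.MP_7a8f48_an.InvariantSpectraHalf
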