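import Pool.Agent.R296.SM.Cyd
import Pool.Agent.Y842.PH.Tri
import Pool.Agent.Y304.U.Avc
import Pool.Agent.Y304.U.Pw
import Pool.Agent.Y842.EL.One

/-!
# Möbius disjointness in norm, at almost all scales, for isometric extensions of almost periodic automorphisms
of C*-algebras
-/

set_option autoImplicit false

open Filter Topology Finset
open scoped Matrix

namespace Pool.Agent.Results.MP_7a8f48_an.IsometricExtensions

universe u v

open Classical in
/-- `E` has logarithmic density zero -/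
def LogDensityZero (E : Set ℕ) : Prop := Tendsto
  (fun X : ℕ => (∑ n ∈ Icc 1 X, if n ∈ E then (1 : ℝ) / n else 0) / Real.log X) atTop (𝓝 0)

/-- the Möbius function -/
def mu (n : ℕ) : ℤ := ArithmeticFunction.moebius n

/-- the Liouville function -/
def lam (n : ℕ) : ℤ := (-1) ^ ArithmeticFunction.cardFactors n

section defs

variable {A : Type u} [CStarAlgebra A]

/-- eigenvectors of `α`, with an eigenvalue of modulus one -/
def Eigenvector (α : A →⋆ₐ[ℂ] A) (c : A) : Prop := ∃ l : ℂ, ‖l‖ = 1 ∧ α c = l • c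

/-- the almost periodic elements: limits of polynomials in eigenvectors -/
def AlmostPeriodic (α : A →⋆ₐ[ℂ] A) (p : A) : Prop :=
  p ∈ closure (Algebra.adjoin ℂ {c : A | Eigenvector α c} : Set A)

/-- The column `w` of elements of `A` satisfies `α(w) = V w` for a matrix `V` of almost periodic elements with
`V V* = 1`. -/
def IsometricColumn (α : A →⋆ₐ[ℂ] A) {d : ℕ} (w : Fin d → A) : Prop :=
  ∃ V : Matrix (Fin d) (Fin d) A, V * Vᴴ = 1 ∧ (∀ i j, AlmostPeriodic α (V i j)) ∧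
    ∀ i, α (w i) = ∑ j, V i j * w j

/-- the products `c w b`, where `c` and `b` are eigenvectors (for example `1`) and `w` is an entry of an
isometric column -/
def IsometricElements (α : A →⋆ₐ[ℂ] A) : Set A :=
  {x | ∃ (c b : A) (d : ℕ) (w : Fin d → A) (i : Fin d), Eigenvector α c ∧ Eigenvector α b ∧
    IsometricColumn α w ∧ x = c * w i * b}

end defs

/-- the sum of `h m e(mθ) y m` over the `m` in `S`, where `e(t) = exp(2 π i t)` -/
noncomputable def twistedSum {X : Type v} [NormedAddCommGroup X] [NormedSpace ℂ X] (h : ℕ → ℤ) (θ : ℝ)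
    (S : Finset ℕ) (y : ℕ → X) : X :=
  ∑ m ∈ S, ((h m : ℂ) * Complex.exp (2 * Real.pi * Complex.I * m * θ)) • y m

/-- The sequence `y` is disjoint from `h`, uniformly in the twist: (1) for the long averages up to `N`, `N` outside
`E`, and (2) in logarithmic mean, for all `N`. -/
def DisjointOutside {X : Type v} [NormedAddCommGroup X] [NormedSpace ℂ X] (E : Set ℕ) (h : ℕ → ℤ)
    (y : ℕ → X) : Prop :=
  ∀ ε : ℝ, 0 < ε →
    (∃ N0 : ℕ, ∀ N ≥ N0, N ∉ E → ∀ θ : ℝ, ‖twistedSum h θ (Icc 1 N) y‖ ≤ ε * N) ∧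
    ∃ N0 : ℕ, ∀ N ≥ N0, ∀ θ : ℝ,
      ‖twistedSum h θ (Icc 1 N) (fun m => (1 / (m : ℂ)) • y m)‖ ≤ ε * Real.log N

/-- the conclusion for an element `x` of a C*-algebra `W` with an automorphism `γ`: the orbit is disjoint in norm
from the Möbius and the Liouville function, so that for all bounded functionals `ρ`
`(1/N) ∑_{n ≤ N} μ(n) ρ(γⁿ x) → 0` as `N → ∞` outside `E` and `(1/log N) ∑_{n ≤ N} μ(n) ρ(γⁿ x) / n → 0`. -/
def Conclusion (E : Set ℕ) {W : Type v} [NonUnitalCStarAlgebra W] (γ : W ≃⋆ₐ[ℂ] W) (x : W) : Prop :=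
  DisjointOutside E mu (fun n => (γ ^ n) x) ∧ DisjointOutside E lam (fun n => (γ ^ n) x) ∧
  ∀ ρ : W →L[ℂ] ℂ,
    Tendsto (fun N : ℕ => (1 / (N : ℂ)) * ∑ n ∈ Icc 1 N, (mu n : ℂ) * ρ ((γ ^ n) x)) (atTop ⊓ 𝓟 Eᶜ) (𝓝 0) ∧
    Tendsto (fun N : ℕ => (1 / (Real.log N : ℂ)) * ∑ n ∈ Icc 1 N, (mu n : ℂ) / n * ρ ((γ ^ n) x)) atTop (𝓝 0)

/-- All automorphisms `γ` of C*-algebras `W` (unital or not) which embed equivariantly in the system `(A, α)`
satisfy the conclusion, for the elements in the closed span of the isometric elements of `α`. -/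
def AllSubsystems (E : Set ℕ) {A : Type u} [CStarAlgebra A] (α : A →⋆ₐ[ℂ] A) : Prop :=
  ∀ (W : Type v) [NonUnitalCStarAlgebra W] (γ : W ≃⋆ₐ[ℂ] W) (κ : W →⋆ₙₐ[ℂ] A), Function.Injective κ →
    (∀ x, κ (γ x) = α (κ x)) →
    ∀ x : W, κ x ∈ closure (Submodule.span ℂ (IsometricElements α) : Set A) → Conclusion E γ x

open Pool.Agent.R296.SM

theorem ap_mem {A : Type u} [CStarAlgebra A] {α : A →⋆ₐ[ℂ] A} {p : A} (h : AlmostPeriodic α p) : p ∈ APs α := h

theorem gd_of {A : Type u} [CStarAlgebra A] {α : A →⋆ₐ[ℂ] A} {E : Set ℕ} {f : ℕ → ℤ} (hf : ∀ n, |f n| ≤ 1)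
    (hw : Wt E f) {x : A} (hx : x ∈ closure (Submodule.span ℂ (IsometricElements α) : Set A)) : Gd α E f x := by
  refine Gd.closure hf ?_ hx
  rintro _ ⟨c, b, d, w, i, hc, hb, ⟨V, hV, hVP, hwV⟩, rfl⟩
  exact Gd.elem hf hw hV (fun i j => ap_mem (hVP i j)) hwV i hc hb

theorem pow_kap {A : Type u} [CStarAlgebra A] {α : A →⋆ₐ[ℂ] A} {W : Type v} [NonUnitalCStarAlgebra W]
    {γ : W ≃⋆ₐ[ℂ] W} {κ : W →⋆ₙₐ[ℂ] A} (hκ : ∀ x, κ (γ x) = α (κ x)) (n : ℕ) (x : W) :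
    κ ((γ ^ n) x) = (α ^ n) (κ x) := by
  induction n generalizing x with
  | zero => rfl
  | succ n ih =>
    rw [pow_succ, pow_succ]
    show κ ((γ ^ n) (γ x)) = (α ^ n) (α (κ x))
    rw [ih, hκ]

theorem disj_of {A : Type u} [CStarAlgebra A] {α : A →⋆ₐ[ℂ] A} {E : Set ℕ} (hE : LDZ E) {f : ℕ → ℤ}
    (hf : ∀ n, |f n| ≤ 1) {W : Type v} [NonUnitalCStarAlgebra W]
    {γ : W ≃⋆ₐ[ℂ] W} {κ : W →⋆ₙₐ[ℂ] A} (hi : Function.Injective κ) (hκ : ∀ x, κ (γ x) = α (κ x)) {x : W}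
    (hx : Gd α E f (κ x)) : DisjointOutside E f (fun n => (γ ^ n) x) := by
  have hlong : ∀ ε : ℝ, 0 < ε → ∃ N0 : ℕ, ∀ N ≥ N0, N ∉ E → ∀ θ : ℝ,
      ‖twistedSum f θ (Icc 1 N) (fun n => (γ ^ n) x)‖ ≤ ε * N := by
    intro ε hε
    obtain ⟨N₀, h1⟩ := hx ε hε
    refine ⟨N₀, fun N hN hNE θ => ?_⟩
    rw [← NonUnitalStarAlgHom.norm_map κ hi]
    refine le_trans (le_of_eq ?_) (h1 N hN hNE (θ : UnitAddCircle))
    congr 1
    unfold twistedSum
    rw [map_sum]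
    refine sum_congr rfl fun m _ => ?_
    rw [map_smul, pow_kap hκ, exp_fourier]
    rfl
  intro ε hε
  refine ⟨hlong ε hε, ?_⟩
  obtain ⟨N₀, h3⟩ := logmean hE (M := ‖x‖)
    (𝓕 := {a : ℕ → W | ∃ θ : ℝ, a = fun m => ((f m : ℂ) * Complex.exp (2 * Real.pi * Complex.I * m * θ)) • (γ ^ m) x})
    (by
      rintro _ ⟨θ, rfl⟩ n
      rw [norm_smul, exp_fourier, norm_pow_apply]
      calc _ ≤ 1 * ‖x‖ := mul_le_mul_of_nonneg_right (norm_tws hf (θ : UnitAddCircle) n) (norm_nonneg _)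
        _ = ‖x‖ := one_mul _)
    (by
      intro ε hε
      obtain ⟨N₀, h4⟩ := hlong ε hε
      refine ⟨N₀, ?_⟩
      rintro N hN hNE _ ⟨θ, rfl⟩
      exact h4 N hN hNE θ) ε hε
  refine ⟨N₀, fun N hN θ => ?_⟩
  refine le_trans (le_of_eq ?_) (h3 N hN _ ⟨θ, rfl⟩)
  unfold twistedSum
  congr 1
  exact sum_congr rfl fun m _ => smul_comm _ _ _

theorem concl_of {E : Set ℕ} {W : Type v} [NonUnitalCStarAlgebra W] {γ : W ≃⋆ₐ[ℂ] W} {x : W}
    (h1 : DisjointOutside E mu (fun n => (γ ^ n) x)) (h2 : DisjointOutside E lam (fun n => (γ ^ n) x)) :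
    Conclusion E γ x := by
  refine ⟨h1, h2, fun ρ => ⟨?_, ?_⟩⟩
  · rw [Metric.tendsto_nhds]
    intro ε hε
    obtain ⟨N₀, h3⟩ := (h1 (ε / (2 * (‖ρ‖ + 1))) (by positivity)).1
    rw [eventually_inf_principal]
    filter_upwards [eventually_ge_atTop (max N₀ 1)] with N hN hNE
    have h4 := h3 N (le_trans (le_max_left _ _) hN) hNE 0
    unfold twistedSum at h4
    have hN1 : (1 : ℝ) ≤ N := by exact_mod_cast le_trans (le_max_right _ _) hN
    simp only [Complex.ofReal_zero, mul_zero, Complex.exp_zero, mul_one] at h4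
    rw [dist_zero_right]
    have e : ∑ n ∈ Icc 1 N, (mu n : ℂ) * ρ ((γ ^ n) x) = ρ (∑ n ∈ Icc 1 N, (mu n : ℂ) • (γ ^ n) x) := by
      rw [map_sum]
      exact Finset.sum_congr rfl fun n _ => by rw [map_smul, smul_eq_mul]
    rw [e, norm_mul, norm_div, norm_one, Complex.norm_natCast]
    calc 1 / (N : ℝ) * ‖ρ (∑ n ∈ Icc 1 N, (mu n : ℂ) • (γ ^ n) x)‖
        ≤ 1 / (N : ℝ) * (‖ρ‖ * (ε / (2 * (‖ρ‖ + 1)) * N)) := by
          gcongr
          exact (ρ.le_opNorm _).trans (mul_le_mul_of_nonneg_left h4 (norm_nonneg _))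
      _ = ε / 2 * (‖ρ‖ / (‖ρ‖ + 1)) := by field_simp
      _ ≤ ε / 2 * 1 := by
          gcongr
          rw [div_le_one (by positivity)]
          linarith
      _ < ε := by linarith
  · rw [Metric.tendsto_atTop]
    intro ε hε
    obtain ⟨N₀, h3⟩ := (h1 (ε / (2 * (‖ρ‖ + 1))) (by positivity)).2
    refine ⟨max N₀ 2, fun N hN => ?_⟩
    have h4 := h3 N (le_trans (le_max_left _ _) hN) 0
    unfold twistedSum at h4
    have hlog : 0 < Real.log N := Real.log_pos (by exact_mod_cast (by omega : 1 < N))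
    simp only [Complex.ofReal_zero, mul_zero, Complex.exp_zero, mul_one] at h4
    rw [dist_zero_right]
    have e : ∑ n ∈ Icc 1 N, (mu n : ℂ) / n * ρ ((γ ^ n) x) =
        ρ (∑ n ∈ Icc 1 N, (mu n : ℂ) • (1 / (n : ℂ)) • (γ ^ n) x) := by
      rw [map_sum]
      exact Finset.sum_congr rfl fun n _ => by rw [map_smul, map_smul, smul_eq_mul, smul_eq_mul]; ring
    rw [e, norm_mul, norm_div, norm_one, Complex.norm_real, Real.norm_eq_abs, abs_of_pos hlog]
    calc 1 / Real.log N * ‖ρ (∑ n ∈ Icc 1 N, (mu n : ℂ) • (1 / (n : ℂ)) • (γ ^ n) x)‖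
        ≤ 1 / Real.log N * (‖ρ‖ * (ε / (2 * (‖ρ‖ + 1)) * Real.log N)) := by
          gcongr
          exact (ρ.le_opNorm _).trans (mul_le_mul_of_nonneg_left h4 (norm_nonneg _))
      _ = ε / 2 * (‖ρ‖ / (‖ρ‖ + 1)) := by field_simp
      _ ≤ ε / 2 * 1 := by
          gcongr
          rw [div_le_one (by positivity)]
          linarith
      _ < ε := by linarith

theorem wt_of {E F : Set ℕ} {f : ℕ → ℤ} (h : ∀ h : ℕ, 1 ≤ h → ∀ ε : ℝ, 0 < ε → ∃ N₀ : ℕ, ∀ N : ℕ, N₀ ≤ N →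
    N ∉ E → ∀ α : ℝ, ‖Pool.Agent.Y842.PH.Cr f h N α‖ ≤ ε * N) (hEF : E ⊆ F) : Wt F f := by
  intro k hk ε hε
  obtain ⟨N₀, h1⟩ := h k hk ε hε
  refine ⟨N₀, fun N hN hNE l hl => ?_⟩
  obtain ⟨t, ht⟩ := (Complex.norm_eq_one_iff l).1 hl
  have h2 := h1 N hN (fun h3 => hNE (hEF h3)) (t / (2 * Real.pi))
  refine le_trans (le_of_eq ?_) h2
  congr 1
  unfold Pool.Agent.Y842.PH.Cr
  refine sum_congr rfl fun n _ => ?_
  congr 1
  unfold Pool.Agent.Helper602.MK.ee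
  rw [← ht, ← Complex.exp_nat_mul]
  congr 1
  push_cast
  have : (Real.pi : ℂ) ≠ 0 := by exact_mod_cast Real.pi_ne_zero
  field_simp

/-- **Möbius disjointness in norm, at almost all scales, for isometric extensions of almost periodic
automorphisms of C*-algebras.** There is one set `E` of logarithmic density zero which works for all unital
*-endomorphisms `α` of unital C*-algebras, in particular for all automorphisms, and for all their subsystems. -/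
theorem result : ∃ E : Set ℕ, LogDensityZero E ∧
    ∀ (A : Type u) [CStarAlgebra A] (α : A →⋆ₐ[ℂ] A), AllSubsystems.{u, v} E α := by
  obtain ⟨E₁, hE₁, h1⟩ := Pool.Agent.Y842.PH.one_E (Pool.Agent.Y304.U.avc Pool.Agent.Y304.U.pw)
    Pool.Agent.TH823.MRS.mob Pool.Agent.TH823.MRS.mob_bdd Pool.Agent.TH823.MRS.mob_flip
    Pool.Agent.TH823.MRS.expo_mob
  obtain ⟨E₂, hE₂, h2⟩ := Pool.Agent.Y842.PH.one_E (Pool.Agent.Y304.U.avc Pool.Agent.Y304.U.pw)
    Pool.Agent.H376R2.MR.lam Pool.Agent.Y842.EL.abs_lam Pool.Agent.TH823.MRS.lam_flip Pool.Agent.TH823.MRS.expo_lam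
  have hE : LogDensityZero (E₁ ∪ E₂) := Pool.Agent.Y842.EL.LZ_union hE₁ hE₂
  have hmu : ∀ n, |mu n| ≤ 1 := fun n => ArithmeticFunction.abs_moebius_le_one
  have hlam : ∀ n, |lam n| ≤ 1 := fun n => by
    unfold lam
    rw [abs_pow, abs_neg, abs_one, one_pow]
  have w1 : Wt (E₁ ∪ E₂) mu := wt_of h1 Set.subset_union_left
  have w2 : Wt (E₁ ∪ E₂) lam := wt_of h2 Set.subset_union_right
  refine ⟨E₁ ∪ E₂, hE, fun A _ α W _ γ κ hi hκ x hx => ?_⟩
  exact concl_of (disj_of hE hmu hi hκ (gd_of hmu w1 hx)) (disj_of hE hlam hi hκ (gd_of hlam w2 hx))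

end Pool.Agent.Results.MP_7a8f48_an.IsometricExtensions
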