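import Pool.Agent.R296.RE.Ext

/-!
# Möbius disjointness in norm for C*-algebras over almost periodic systems, with recurrent cocycles (helper296)

Let `(Y, S)` be an almost periodic system, `G` a locally compact group which acts on a C*-algebra `B` by
automorphisms `ρ_g`, `φ : Y → G` continuous. The automorphism `(γ F)(y) = ρ_φ(y) (F(S y))` of `C(Y, B)`, and its
restriction to every invariant C*-subalgebra, is disjoint from the Möbius function in norm, in logarithmic mean and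
in the mean at almost all scales, if the products `φ(y) φ(S y) ⋯ φ(S^(m-1) y)`, `m < H`, are covered by `o(H)`
translates of a compact set. A special case: any one-parameter group of automorphisms of any C*-algebra `B`, a
rotation of a compact abelian group and a real function `φ` of mean zero.
-/

set_option autoImplicit false

open Finset Filter Topology

namespace Pool.Agent.Results.MP_7a8f48_an.RecurrentCocycles

open Classical in
/-- `E` has logarithmic density zero -/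
def LogDensityZero (E : Set ℕ) : Prop := Tendsto
  (fun X : ℕ => (∑ n ∈ Icc 1 X, if n ∈ E then (1 : ℝ) / n else 0) / Real.log X) atTop (𝓝 0)

/-- `e(x) = exp(2 π i x)` -/
noncomputable def e (x : ℝ) : ℂ := Complex.exp (2 * Real.pi * x * Complex.I)

/-- the Möbius function -/
def mu (n : ℕ) : ℤ := ArithmeticFunction.moebius n

/-- the Liouville function -/
def lam (n : ℕ) : ℤ := (-1) ^ ArithmeticFunction.cardFactors n

/-- The orbits of the points of `P` are almost periodic at each scale, uniformly in the point: for every continuous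
function `c` and every `ε > 0` there is `J` such that at every large scale `N` and for each `y` in `P` there are
`J` frequencies `α_j` and coefficients `ρ_j(n)`, bounded by `J` and of total variation at most `J` on `[0, N]`, with
`∑_{n < N} |c(Sⁿ y) - ∑_j ρ_j(n) e(α_j n)| ≤ ε N`; frequencies and coefficients may depend on `N` and `y`. -/
def AlmostPeriodic {Y : Type} [TopologicalSpace Y] (S : Y → Y) (P : Set Y) : Prop :=
  ∀ c : C(Y, ℂ), ∀ ε : ℝ, 0 < ε → ∃ J N₀ : ℕ, ∀ N : ℕ, N₀ ≤ N → ∀ y ∈ P, ∃ (ρ : Fin J → ℕ → ℂ) (α : Fin J → ℝ),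
    (∀ j n, ‖ρ j n‖ ≤ J) ∧ (∀ j, ∑ n ∈ range N, ‖ρ j (n + 1) - ρ j n‖ ≤ J) ∧
      ∑ n ∈ range N, ‖c (S^[n] y) - ∑ j, ρ j n * e (α j * n)‖ ≤ ε * N

/-- the product `φ(y) φ(S y) ⋯ φ(S^(n-1) y)` -/
def product {Y G : Type} [Group G] (S : Y → Y) (φ : Y → G) : ℕ → Y → G
  | 0, _ => 1
  | n + 1, y => product S φ n y * φ (S^[n] y)

/-- The range of the cocycle is sublinear along the orbits of the points of `P`: for some compact `K` and each `ε > 0`
the products `φ(S^n y) ⋯ φ(S^(n+m-1) y)`, `m < H`, are covered by at most `ε H` sets `a⁻¹ K`, for all large `H`,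
all `n` and all `y` in `P`. -/
def SublinearRange {Y G : Type} [Group G] [TopologicalSpace G] (S : Y → Y) (φ : Y → G) (P : Set Y) : Prop :=
  ∃ K : Set G, IsCompact K ∧ ∀ ε : ℝ, 0 < ε → ∃ H₀ : ℕ, ∀ H ≥ H₀, ∀ y ∈ P, ∀ n : ℕ,
    ∃ A : Finset G, (A.card : ℝ) ≤ ε * H ∧ ∀ m < H, ∃ a ∈ A, a * product S φ m (S^[n] y) ∈ K

/-- An automorphism `γ` of `W` which is, by the family of *-homomorphisms `κ_y : W → B`, a subsystem of the
automorphism `F ↦ (y ↦ ρ_φ(y) (F(S y)))` of the C*-algebra of the continuous functions from `Y` to `B` -/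
structure System (Y G B W : Type) [TopologicalSpace Y] [Group G] [TopologicalSpace G] [NonUnitalCStarAlgebra B]
    [NonUnitalCStarAlgebra W] where
  S : Y → Y
  φ : Y → G
  ρ : G →* (B ≃⋆ₐ[ℂ] B)
  γ : W ≃⋆ₐ[ℂ] W
  κ : Y → W →⋆ₙₐ[ℂ] B
  continuous_S : Continuous S
  continuous_φ : Continuous φ
  continuous_ρ : ∀ b, Continuous fun g => ρ g b
  continuous_κ : ∀ x, Continuous fun y => κ y x
  equivariant : ∀ y x, κ y (γ x) = ρ (φ y) (κ (S y) x)

/-- the points of `P` separate the elements of `W` -/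
def Faithful {Y B W : Type} [NonUnitalCStarAlgebra B] [NonUnitalCStarAlgebra W] (κ : Y → W →⋆ₙₐ[ℂ] B)
    (P : Set Y) : Prop := ∀ x, (∀ y ∈ P, κ y x = 0) → x = 0

/-- the sum of `u(n) e(θ n) y(n)` over the `n` in `s` -/
noncomputable def twistedSum {X : Type} [NormedAddCommGroup X] [NormedSpace ℂ X] (u : ℕ → ℤ) (θ : ℝ)
    (s : Finset ℕ) (y : ℕ → X) : X :=
  ∑ n ∈ s, ((u n : ℂ) * e (θ * n)) • y n

/-- The orbit of `x` is disjoint from `u` in norm, uniformly in the twists: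
(1) `(1/N) ∑_{n ≤ N} u(n) e(θ n) γⁿ x → 0` in norm for `N → ∞`, `N ∉ E`;
(2) `(1/log N) ∑_{n ≤ N} u(n) e(θ n) γⁿ x / n → 0` in norm for `N → ∞`. -/
def NormDisjoint {W : Type} [NonUnitalCStarAlgebra W] (E : Set ℕ) (u : ℕ → ℤ) (γ : W ≃⋆ₐ[ℂ] W) (x : W) : Prop :=
  ∀ ε : ℝ, 0 < ε →
    (∃ N₀ : ℕ, ∀ N ≥ N₀, N ∉ E → ∀ θ : ℝ, ‖twistedSum u θ (Icc 1 N) fun n => (γ ^ n) x‖ ≤ ε * N) ∧
    ∃ N₀ : ℕ, ∀ N ≥ N₀, ∀ θ : ℝ,
      ‖twistedSum u θ (Icc 1 N) fun n => (1 / (n : ℂ)) • (γ ^ n) x‖ ≤ ε * Real.log N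

/-- The values `κ_y(γⁿ x)` are disjoint from `u` in short intervals of length `H`, on average over the intervals up to
`N ∉ E`, uniformly over the points `y` of `P` and the twists. -/
def WindowDisjoint {Y B W : Type} [NonUnitalCStarAlgebra B] [NonUnitalCStarAlgebra W] (E : Set ℕ) (u : ℕ → ℤ)
    (P : Set Y) (γ : W ≃⋆ₐ[ℂ] W) (κ : Y → W →⋆ₙₐ[ℂ] B) (x : W) : Prop :=
  ∀ ε : ℝ, 0 < ε → ∃ H₀ : ℕ, ∀ H ≥ H₀, ∃ N₀ : ℕ, ∀ N ≥ N₀, N ∉ E → ∀ y ∈ P, ∀ θ : ℝ,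
      ∑ n ∈ Icc 1 N, ‖κ y (twistedSum u θ (Icc (n + 1) (n + H)) fun n => (γ ^ n) x)‖ ≤ ε * (H * N)

/-- for each bounded functional `r`, `(1/N) ∑_{n ≤ N} μ(n) r(γⁿ x) → 0` as `N → ∞` outside `E` and
`(1/log N) ∑_{n ≤ N} μ(n) r(γⁿ x) / n → 0` -/
def FunctionalDisjoint {W : Type} [NonUnitalCStarAlgebra W] (E : Set ℕ) (γ : W ≃⋆ₐ[ℂ] W) (x : W) : Prop :=
  ∀ r : W →L[ℂ] ℂ,
    Tendsto (fun N : ℕ => (1 / (N : ℂ)) * ∑ n ∈ Icc 1 N, (mu n : ℂ) * r ((γ ^ n) x)) (atTop ⊓ 𝓟 Eᶜ) (𝓝 0) ∧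
    Tendsto (fun N : ℕ => (1 / (Real.log N : ℂ)) * ∑ n ∈ Icc 1 N, (mu n : ℂ) / n * r ((γ ^ n) x)) atTop (𝓝 0)

/-- all conclusions, for all elements -/
def Conclusion {Y B W : Type} [NonUnitalCStarAlgebra B] [NonUnitalCStarAlgebra W] (E : Set ℕ) (P : Set Y)
    (γ : W ≃⋆ₐ[ℂ] W) (κ : Y → W →⋆ₙₐ[ℂ] B) : Prop :=
  ∀ x : W, NormDisjoint E mu γ x ∧ NormDisjoint E lam γ x ∧ FunctionalDisjoint E γ x ∧
    WindowDisjoint E mu P γ κ x ∧ WindowDisjoint E lam P γ κ x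

/-- (A) almost periodic base, arbitrary locally compact group, cocycle with sublinear range -/
def PartA (E : Set ℕ) : Prop :=
  ∀ (Y G B W : Type) [TopologicalSpace Y] [CompactSpace Y] [Group G] [TopologicalSpace G] [IsTopologicalGroup G]
    [T2Space G] [LocallyCompactSpace G] [NonUnitalCStarAlgebra B] [NonUnitalCStarAlgebra W]
    (Θ : System Y G B W) (P : Set Y), Faithful Θ.κ P → AlmostPeriodic Θ.S P → SublinearRange Θ.S Θ.φ P →
    Conclusion E P Θ.γ Θ.κ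

/-- `f` has mean zero along the orbits of the points of `P` for the multiplication by `a` -/
def MeanZero {Y : Type} [CommGroup Y] (a : Y) (f : Y → ℝ) (P : Set Y) : Prop :=
  ∀ y ∈ P, Tendsto (fun N : ℕ => (1 / (N : ℝ)) * ∑ n ∈ range N, f (a ^ n * y)) atTop (𝓝 0)

/-- (B) rotation of a compact abelian group, `G` a locally compact group with a proper continuous homomorphism `ℓ` to
the real line (for example `ℝ`, `ℤ`, compact groups, `ℝ × K` with `K` compact), all points `y` for which `ℓ(φ)` has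
mean zero along the orbit -/
def PartB (E : Set ℕ) : Prop :=
  ∀ (Y G B W : Type) [CommGroup Y] [TopologicalSpace Y] [IsTopologicalGroup Y] [CompactSpace Y] [T2Space Y]
    [Group G] [TopologicalSpace G] [IsTopologicalGroup G] [T2Space G] [LocallyCompactSpace G]
    [NonUnitalCStarAlgebra B] [NonUnitalCStarAlgebra W] (Θ : System Y G B W) (a : Y) (ℓ : G → ℝ) (P : Set Y),
    (∀ y, Θ.S y = a * y) → Continuous ℓ → (∀ g h, ℓ (g * h) = ℓ g + ℓ h) → IsCompact {g | |ℓ g| ≤ 1} →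
    Faithful Θ.κ P → MeanZero a (fun y => ℓ (Θ.φ y)) P → Conclusion E P Θ.γ Θ.κ

/-- (C) rotation of a compact abelian group, an arbitrary strongly continuous one-parameter group `ρ_t` of
automorphisms of an arbitrary C*-algebra `B`, all points `y` for which `φ` has mean zero along the orbit -/
def PartC (E : Set ℕ) : Prop :=
  ∀ (Y B W : Type) [CommGroup Y] [TopologicalSpace Y] [IsTopologicalGroup Y] [CompactSpace Y] [T2Space Y]
    [NonUnitalCStarAlgebra B] [NonUnitalCStarAlgebra W] (Θ : System Y (Multiplicative ℝ) B W) (a : Y) (P : Set Y),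
    (∀ y, Θ.S y = a * y) → Faithful Θ.κ P → MeanZero a (fun y => Multiplicative.toAdd (Θ.φ y)) P →
    Conclusion E P Θ.γ Θ.κ

open Pool.Agent.R296.RE

theorem product_eq {Y G : Type} [Group G] (S : Y → Y) (φ : Y → G) (n : ℕ) (y : Y) :
    (prods S (fun y => (φ y)⁻¹) n y)⁻¹ = product S φ n y := by
  induction n with
  | zero => simp [prods, product]
  | succ n ih =>
    show ((φ (S^[n] y))⁻¹ * prods S (fun y => (φ y)⁻¹) n y)⁻¹ = product S φ n y * φ (S^[n] y)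
    rw [mul_inv_rev, inv_inv, ih]

theorem uap_of {Y : Type} [TopologicalSpace Y] {S : Y → Y} {P : Set Y} (h : AlmostPeriodic S P) (c : C(Y, ℂ)) :
    UAP {b | ∃ y ∈ P, b = fun n => c (S^[n] y)} := by
  intro ε hε
  obtain ⟨J, N₀, h1⟩ := h c ε hε
  refine ⟨J, N₀, ?_⟩
  rintro N hN _ ⟨y, hy, rfl⟩
  exact h1 N hN y hy

theorem sub_of {Y G : Type} [Group G] [TopologicalSpace G] [IsTopologicalGroup G] {S : Y → Y} {φ : Y → G} {P : Set Y}
    (h : SublinearRange S φ P) : Sub S (fun y => (φ y)⁻¹) P := by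
  obtain ⟨K, hK, h1⟩ := h
  refine ⟨K⁻¹, hK.inv, fun ε hε => ?_⟩
  obtain ⟨H₀, h2⟩ := h1 ε hε
  refine ⟨H₀, fun H hH y hy n => ?_⟩
  obtain ⟨A, hA, h3⟩ := h2 H hH y hy n
  classical
  refine ⟨A.image fun a => a⁻¹, (Nat.cast_le.2 card_image_le).trans hA, fun m hm => ?_⟩
  obtain ⟨a, ha, h4⟩ := h3 m hm
  refine ⟨a⁻¹, mem_image.2 ⟨a, ha, rfl⟩, ?_⟩
  rw [← product_eq] at h4
  rw [Set.mem_inv, mul_inv_rev, inv_inv]
  exact h4

section

variable {Y G B W : Type} [TopologicalSpace Y] [CompactSpace Y] [Group G] [TopologicalSpace G] [IsTopologicalGroup G]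
  [T2Space G] [LocallyCompactSpace G] [NonUnitalCStarAlgebra B] [NonUnitalCStarAlgebra W]

/-- the representation on `B` -/
def bRep (ρ : G →* (B ≃⋆ₐ[ℂ] B)) (hρ : ∀ b, Continuous fun g => ρ g b) : Rep G B where
  Q g :=
    { toFun := fun b => ρ g⁻¹ b
      map_add' := fun _ _ => map_add _ _ _
      map_smul' := fun c b => map_smul (ρ g⁻¹) c b }
  le g b := (NonUnitalStarAlgHom.norm_apply_le (ρ g⁻¹ : B ≃⋆ₐ[ℂ] B) b)
  mul g h b := by
    show ρ (g * h)⁻¹ b = ρ h⁻¹ (ρ g⁻¹ b)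
    rw [mul_inv_rev, map_mul]
    rfl
  cont b := (hρ b).comp continuous_inv

omit [CompactSpace Y] [IsTopologicalGroup G] [T2Space G] [LocallyCompactSpace G] in
theorem iterate_eq (Θ : System Y G B W) (n : ℕ) (y : Y) (x : W) :
    Θ.κ y ((Θ.γ ^ n) x) = Θ.ρ (product Θ.S Θ.φ n y) (Θ.κ (Θ.S^[n] y) x) := by
  induction n generalizing x with
  | zero =>
    show Θ.κ y x = Θ.ρ 1 (Θ.κ y x)
    rw [map_one]
    rfl
  | succ n ih =>
    rw [pow_succ]
    show Θ.κ y ((Θ.γ ^ n) (Θ.γ x)) = _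
    rw [ih, Θ.equivariant, Function.iterate_succ_apply']
    show _ = Θ.ρ (product Θ.S Θ.φ n y * Θ.φ (Θ.S^[n] y)) _
    rw [map_mul]
    rfl

omit [CompactSpace Y] [T2Space G] [LocallyCompactSpace G] in
theorem bRep_eq (Θ : System Y G B W) (n : ℕ) (y : Y) (x : W) :
    (bRep Θ.ρ Θ.continuous_ρ).Q (prods Θ.S (fun y => (Θ.φ y)⁻¹) n y) (Θ.κ (Θ.S^[n] y) x) =
      Θ.κ y ((Θ.γ ^ n) x) := by
  rw [iterate_eq Θ, ← product_eq]
  rfl

/-- the family of the sequences -/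
def famB (u : ℕ → ℤ) (P : Set Y) (γ : W ≃⋆ₐ[ℂ] W) (κ : Y → W →⋆ₙₐ[ℂ] B) (x : W) : Set (ℕ → B) :=
  {b | ∃ y ∈ P, ∃ θ : ℝ, b = fun n => tw u θ n • κ y ((γ ^ n) x)}

theorem fam_three {u : ℕ → ℤ} (hb : ∀ n, |u n| ≤ 1) {E : Set ℕ} (hLZ : Pool.Agent.R296.SM.LDZ E)
    (hE : Kf u E) (Θ : System Y G B W) {P : Set Y}
    (hAP : ∀ c : C(Y, ℂ), UAP {b | ∃ y ∈ P, b = fun n => c (Θ.S^[n] y)}) (hR : Sub Θ.S (fun y => (Θ.φ y)⁻¹) P) (x : W)
    (ε : ℝ) (hε : 0 < ε) :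
    (∃ N₀ : ℕ, ∀ N ≥ N₀, N ∉ E → ∀ b ∈ famB u P Θ.γ Θ.κ x, ‖∑ n ∈ Icc 1 N, b n‖ ≤ ε * N) ∧
    (∃ H₀ : ℕ, ∀ H ≥ H₀, ∃ N₀ : ℕ, ∀ N ≥ N₀, N ∉ E → ∀ b ∈ famB u P Θ.γ Θ.κ x,
      ∑ n ∈ Icc 1 N, ‖∑ m ∈ Icc 1 H, b (n + m)‖ ≤ ε * (H * N)) ∧
    ∃ N₀ : ℕ, ∀ N ≥ N₀, ∀ b ∈ famB u P Θ.γ Θ.κ x, ‖∑ n ∈ Icc 1 N, (1 / (n : ℂ)) • b n‖ ≤ ε * Real.log N := by
  refine three hLZ (C := ‖x‖) ?_ (fun ε hε => ?_) ε hε
  · rintro _ ⟨y, _, θ, rfl⟩ n
    rw [norm_smul]
    calc ‖tw u θ n‖ * ‖Θ.κ y ((Θ.γ ^ n) x)‖ ≤ 1 * ‖x‖ :=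
          mul_le_mul (norm_tw hb θ n) ((NonUnitalStarAlgHom.norm_apply_le _ _).trans
            (NonUnitalStarAlgHom.norm_apply_le (Θ.γ ^ n) x)) (norm_nonneg _) zero_le_one
      _ = _ := one_mul _
  · obtain ⟨H₀, h1⟩ := windows hb hE Θ.continuous_S (φ := fun y => (Θ.φ y)⁻¹) Θ.continuous_φ.inv hAP hR
      (bRep Θ.ρ Θ.continuous_ρ) (F := fun y => Θ.κ y x) (Θ.continuous_κ x) ε hε
    refine ⟨H₀, fun H hH => ?_⟩
    obtain ⟨N₀, h2⟩ := h1 H hH
    refine ⟨N₀, ?_⟩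
    rintro N hN hNE _ ⟨y, hy, θ, rfl⟩
    refine le_trans (le_of_eq ?_) (h2 N hN hNE y hy θ)
    refine sum_congr rfl fun n _ => ?_
    congr 1
    refine sum_congr rfl fun m _ => ?_
    show tw u θ (n + m) • Θ.κ y ((Θ.γ ^ (n + m)) x) = _
    rw [bRep_eq Θ]

/-- the embedding in the bounded continuous functions on `P` -/
noncomputable def emb' {P : Set Y} (κ : Y → W →⋆ₙₐ[ℂ] B) (hc : ∀ x, Continuous fun y => κ y x) :
    W →⋆ₙₐ[ℂ] (BoundedContinuousFunction P B) where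
  toFun x := BoundedContinuousFunction.ofNormedAddCommGroup (fun y : P => κ y x)
    ((hc x).comp continuous_subtype_val) ‖x‖ fun y => NonUnitalStarAlgHom.norm_apply_le _ _
  map_smul' c x := by ext y; exact map_smul (κ y) c x
  map_zero' := by ext y; exact map_zero (κ y)
  map_add' x x' := by ext y; exact map_add (κ y) x x'
  map_mul' x x' := by ext y; exact map_mul (κ y) x x'
  map_star' x := by ext y; exact map_star (κ y) x

omit [CompactSpace Y] [IsTopologicalGroup G] [T2Space G] [LocallyCompactSpace G] in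
theorem norm_le_of (Θ : System Y G B W) {P : Set Y} (h : Faithful Θ.κ P) {x : W} {C : ℝ} (hC : 0 ≤ C)
    (hx : ∀ y ∈ P, ‖Θ.κ y x‖ ≤ C) : ‖x‖ ≤ C := by
  have hi : Function.Injective (emb' (P := P) Θ.κ Θ.continuous_κ) := by
    rw [injective_iff_map_eq_zero]
    intro x hx
    apply h
    intro y hy
    have := congrArg (fun F : BoundedContinuousFunction P B => F ⟨y, hy⟩) hx
    exact this
  rw [← NonUnitalStarAlgHom.norm_map (emb' (P := P) Θ.κ Θ.continuous_κ) hi x, BoundedContinuousFunction.norm_le hC]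
  intro y
  exact hx y y.2

theorem tws_eq (u : ℕ → ℤ) (θ : ℝ) (s : Finset ℕ) (y : ℕ → W) : twistedSum u θ s y = ∑ n ∈ s, tw u θ n • y n := rfl

theorem disj_of {u : ℕ → ℤ} (hb : ∀ n, |u n| ≤ 1) {E : Set ℕ} (hLZ : LogDensityZero E)
    (hE : Kf u E) (Θ : System Y G B W) {P : Set Y} (h : Faithful Θ.κ P)
    (hAP : ∀ c : C(Y, ℂ), UAP {b | ∃ y ∈ P, b = fun n => c (Θ.S^[n] y)}) (hR : Sub Θ.S (fun y => (Θ.φ y)⁻¹) P)
    (x : W) : NormDisjoint E u Θ.γ x ∧ WindowDisjoint E u P Θ.γ Θ.κ x := by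
  refine ⟨fun ε hε => ?_, fun ε hε => ?_⟩
  · obtain ⟨⟨N₁, h1⟩, -, ⟨N₃, h3⟩⟩ := fam_three hb hLZ hE Θ hAP hR x ε hε
    refine ⟨⟨N₁, fun N hN hNE θ => ?_⟩, ⟨max N₃ 1, fun N hN θ => ?_⟩⟩
    · refine norm_le_of Θ h (by positivity) fun y hy => ?_
      refine le_trans (le_of_eq ?_) (h1 N hN hNE _ ⟨y, hy, θ, rfl⟩)
      rw [tws_eq, map_sum]
      congr 1
      exact sum_congr rfl fun n _ => map_smul _ _ _
    · have hN1 : (1 : ℝ) ≤ N := by exact_mod_cast le_trans (le_max_right _ _) hN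
      refine norm_le_of Θ h (mul_nonneg hε.le (Real.log_nonneg hN1)) fun y hy => ?_
      refine le_trans (le_of_eq ?_) (h3 N (le_trans (le_max_left _ _) hN) _ ⟨y, hy, θ, rfl⟩)
      rw [tws_eq, map_sum]
      congr 1
      refine sum_congr rfl fun n _ => ?_
      rw [map_smul, map_smul, smul_comm]
  · obtain ⟨-, ⟨H₂, h2⟩, -⟩ := fam_three hb hLZ hE Θ hAP hR x ε hε
    refine ⟨H₂, fun H hH => ?_⟩
    obtain ⟨N₂, h4⟩ := h2 H hH
    refine ⟨N₂, fun N hN hNE y hy θ => ?_⟩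
    refine le_trans (le_of_eq ?_) (h4 N hN hNE _ ⟨y, hy, θ, rfl⟩)
    refine sum_congr rfl fun n _ => ?_
    rw [tws_eq, map_sum]
    congr 1
    have e1 : Icc (n + 1) (n + H) = (Icc 1 H).image fun m => n + m := by
      ext k
      simp only [mem_Icc, mem_image]
      constructor
      · intro hk
        exact ⟨k - n, by omega, by omega⟩
      · rintro ⟨m, hm, rfl⟩
        omega
    rw [e1, sum_image (fun i _ j _ hij => by simpa using hij)]
    exact sum_congr rfl fun m _ => map_smul _ _ _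

end

theorem functional {W : Type} [NonUnitalCStarAlgebra W] {E : Set ℕ} {γ : W ≃⋆ₐ[ℂ] W} {x : W}
    (h : NormDisjoint E mu γ x) : FunctionalDisjoint E γ x := by
  intro r
  constructor
  · rw [Metric.tendsto_nhds]
    intro ε hε
    obtain ⟨N₀, h3⟩ := (h (ε / (2 * (‖r‖ + 1))) (by positivity)).1
    rw [eventually_inf_principal]
    filter_upwards [eventually_ge_atTop (max N₀ 1)] with N hN hNE
    have h4 := h3 N (le_trans (le_max_left _ _) hN) hNE 0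
    unfold twistedSum e at h4
    have hN1 : (1 : ℝ) ≤ N := by exact_mod_cast le_trans (le_max_right _ _) hN
    simp only [zero_mul, Complex.ofReal_zero, mul_zero, Complex.exp_zero, mul_one] at h4
    rw [dist_zero_right]
    have e : ∑ n ∈ Icc 1 N, (mu n : ℂ) * r ((γ ^ n) x) = r (∑ n ∈ Icc 1 N, (mu n : ℂ) • (γ ^ n) x) := by
      rw [map_sum]
      exact Finset.sum_congr rfl fun n _ => by rw [map_smul, smul_eq_mul]
    rw [e, norm_mul, norm_div, norm_one, Complex.norm_natCast]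
    calc 1 / (N : ℝ) * ‖r (∑ n ∈ Icc 1 N, (mu n : ℂ) • (γ ^ n) x)‖
        ≤ 1 / (N : ℝ) * (‖r‖ * (ε / (2 * (‖r‖ + 1)) * N)) := by
          gcongr
          exact (r.le_opNorm _).trans (mul_le_mul_of_nonneg_left h4 (norm_nonneg _))
      _ = ε / 2 * (‖r‖ / (‖r‖ + 1)) := by field_simp
      _ ≤ ε / 2 * 1 := by
          gcongr
          rw [div_le_one (by positivity)]
          linarith
      _ < ε := by linarith
  · rw [Metric.tendsto_atTop]
    intro ε hε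
    obtain ⟨N₀, h3⟩ := (h (ε / (2 * (‖r‖ + 1))) (by positivity)).2
    refine ⟨max N₀ 2, fun N hN => ?_⟩
    have h4 := h3 N (le_trans (le_max_left _ _) hN) 0
    unfold twistedSum e at h4
    have hlog : 0 < Real.log N := Real.log_pos (by
      have : 2 ≤ N := le_trans (le_max_right _ _) hN
      exact_mod_cast (by omega : 1 < N))
    simp only [zero_mul, Complex.ofReal_zero, mul_zero, Complex.exp_zero, mul_one] at h4
    rw [dist_zero_right]
    have e : ∑ n ∈ Icc 1 N, (mu n : ℂ) / n * r ((γ ^ n) x) =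
        r (∑ n ∈ Icc 1 N, (mu n : ℂ) • (1 / (n : ℂ)) • (γ ^ n) x) := by
      rw [map_sum]
      exact Finset.sum_congr rfl fun n _ => by rw [map_smul, map_smul, smul_eq_mul, smul_eq_mul]; ring
    rw [e, norm_mul, norm_div, norm_one, Complex.norm_real, Real.norm_eq_abs, abs_of_pos hlog]
    calc 1 / Real.log N * ‖r (∑ n ∈ Icc 1 N, (mu n : ℂ) • (1 / (n : ℂ)) • (γ ^ n) x)‖
        ≤ 1 / Real.log N * (‖r‖ * (ε / (2 * (‖r‖ + 1)) * Real.log N)) := by
          gcongr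
          exact (r.le_opNorm _).trans (mul_le_mul_of_nonneg_left h4 (norm_nonneg _))
      _ = ε / 2 * (‖r‖ / (‖r‖ + 1)) := by field_simp
      _ ≤ ε / 2 * 1 := by
          gcongr
          rw [div_le_one (by positivity)]
          linarith
      _ < ε := by linarith

section

variable {Y G B W : Type} [TopologicalSpace Y] [CompactSpace Y] [Group G] [TopologicalSpace G] [IsTopologicalGroup G]
  [T2Space G] [LocallyCompactSpace G] [NonUnitalCStarAlgebra B] [NonUnitalCStarAlgebra W]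

theorem concl_of {E : Set ℕ} (hLZ : LogDensityZero E) (hmu : ∀ n, |mu n| ≤ 1) (hlam : ∀ n, |lam n| ≤ 1)
    (h1 : Kf mu E) (h2 : Kf lam E) (Θ : System Y G B W) {P : Set Y} (h : Faithful Θ.κ P)
    (hAP : ∀ c : C(Y, ℂ), UAP {b | ∃ y ∈ P, b = fun n => c (Θ.S^[n] y)}) (hR : Sub Θ.S (fun y => (Θ.φ y)⁻¹) P) :
    Conclusion E P Θ.γ Θ.κ := fun x => by
  have h3 := disj_of hmu hLZ h1 Θ h hAP hR x
  have h4 := disj_of hlam hLZ h2 Θ h hAP hR x
  exact ⟨h3.1, h4.1, functional h3.1, h3.2, h4.2⟩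

end

theorem kf_of {E F : Set ℕ} {f : ℕ → ℤ} (h : ∀ h : ℕ, 1 ≤ h → ∀ ε : ℝ, 0 < ε → ∃ N₀ : ℕ, ∀ N : ℕ, N₀ ≤ N →
    N ∉ E → ∀ α : ℝ, ‖Pool.Agent.Y842.PH.Cr f h N α‖ ≤ ε * N) (hEF : E ⊆ F) : Kf f F := by
  intro k hk ε hε
  obtain ⟨N₀, h1⟩ := h k hk ε hε
  exact ⟨N₀, fun N hN hNE => h1 N hN (fun h3 => hNE (hEF h3))⟩

theorem partB_of {E : Set ℕ} (hE : LogDensityZero E) (hmu : ∀ n, |mu n| ≤ 1) (hlam : ∀ n, |lam n| ≤ 1)
    (h1 : Kf mu E) (h2 : Kf lam E) : PartB E := by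
  intro Y G B W _ _ _ _ _ _ _ _ _ _ _ _ Θ a ℓ P hS hℓ hadd hp hfaith hmean
  have hSS : Θ.S = fun y => a * y := funext hS
  have hb : ∃ M : ℝ, ∀ y, |ℓ (Θ.φ y)⁻¹| ≤ M := by
    have h3 : Continuous fun y => |ℓ (Θ.φ y)⁻¹| := (hℓ.comp Θ.continuous_φ.inv).abs
    obtain ⟨M, hM⟩ := (isCompact_range h3).bddAbove
    exact ⟨M, fun y => hM ⟨y, rfl⟩⟩
  obtain ⟨M, hM⟩ := hb
  have hinv : ∀ g, ℓ g⁻¹ = -ℓ g := by
    intro g
    have h4 := hadd g g⁻¹
    have h5 := hadd 1 1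
    rw [mul_one] at h5
    rw [mul_inv_cancel] at h4
    linarith
  refine concl_of hE hmu hlam h1 h2 Θ hfaith (fun c => ?_) ?_
  · rw [hSS]
    exact UAP_rot a _ c
  rw [hSS]
  refine sub_of_mean (fun y => a * y) (fun y => (Θ.φ y)⁻¹) P ℓ hadd hp hM fun δ hδ => ?_
  obtain ⟨H₀, h3⟩ := mean_unif a ⟨fun y => ℓ (Θ.φ y)⁻¹, hℓ.comp Θ.continuous_φ.inv⟩ δ hδ
  refine ⟨H₀, fun H hH y hy n => ?_⟩
  refine h3 H hH y ?_ n
  have h6 := (hmean y hy).neg
  rw [neg_zero] at h6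
  refine h6.congr fun N => ?_
  rw [← mul_neg, ← sum_neg_distrib]
  congr 1
  refine sum_congr rfl fun n _ => ?_
  show -ℓ (Θ.φ (a ^ n * y)) = ℓ (Θ.φ ((fun x => a * x)^[n] y))⁻¹
  rw [mul_left_iterate, hinv]

theorem partC_of {E : Set ℕ} (h : PartB E) : PartC E := by
  intro Y B W _ _ _ _ _ _ _ Θ a P hS hfaith hmean
  have hp : IsCompact {g : Multiplicative ℝ | |Multiplicative.toAdd g| ≤ 1} := by
    have h1 : IsCompact {x : ℝ | |x| ≤ 1} := by
      have : {x : ℝ | |x| ≤ 1} = Set.Icc (-1) 1 := by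
        ext x
        show |x| ≤ 1 ↔ x ∈ Set.Icc (-1 : ℝ) 1
        rw [Set.mem_Icc, abs_le]
      rw [this]
      exact isCompact_Icc
    exact h1
  exact h Y (Multiplicative ℝ) B W Θ a (fun t => Multiplicative.toAdd t) P hS continuous_toAdd (fun _ _ => rfl) hp
    hfaith hmean

/-- **Theorem.** There is one set `E` of logarithmic density zero such that (A), (B) and (C) hold. -/
theorem result : ∃ E : Set ℕ, LogDensityZero E ∧ PartA E ∧ PartB E ∧ PartC E := by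
  obtain ⟨E₁, hE₁, h1⟩ := Pool.Agent.Y842.PH.one_E (Pool.Agent.Y304.U.avc Pool.Agent.Y304.U.pw)
    Pool.Agent.TH823.MRS.mob Pool.Agent.TH823.MRS.mob_bdd Pool.Agent.TH823.MRS.mob_flip
    Pool.Agent.TH823.MRS.expo_mob
  obtain ⟨E₂, hE₂, h2⟩ := Pool.Agent.Y842.PH.one_E (Pool.Agent.Y304.U.avc Pool.Agent.Y304.U.pw)
    Pool.Agent.H376R2.MR.lam Pool.Agent.Y842.EL.abs_lam Pool.Agent.TH823.MRS.lam_flip Pool.Agent.TH823.MRS.expo_lam
  have hE : LogDensityZero (E₁ ∪ E₂) := Pool.Agent.Y842.EL.LZ_union hE₁ hE₂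
  have hmu : ∀ n, |mu n| ≤ 1 := fun n => ArithmeticFunction.abs_moebius_le_one
  have hlam : ∀ n, |lam n| ≤ 1 := fun n => by
    unfold lam
    rw [abs_pow, abs_neg, abs_one, one_pow]
  have s1 : Kf mu (E₁ ∪ E₂) := kf_of h1 Set.subset_union_left
  have s2 : Kf lam (E₁ ∪ E₂) := kf_of h2 Set.subset_union_right
  have hB := partB_of hE hmu hlam s1 s2
  refine ⟨E₁ ∪ E₂, hE, ?_, hB, partC_of hB⟩
  intro Y G B W _ _ _ _ _ _ _ _ _ Θ P hfaith hAP hR
  exact concl_of hE hmu hlam s1 s2 Θ hfaith (uap_of hAP) (sub_of hR)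

end Pool.Agent.Results.MP_7a8f48_an.RecurrentCocycles
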