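import Pool.Agent.R296.SM.NormU
import Pool.Agent.R296.SM.Sing
import Pool.Agent.R296.SM.Lg
import Pool.Agent.Y842.PH.Tri
import Pool.Agent.Y304.U.Avc
import Pool.Agent.Y304.U.Pw
import Pool.Agent.Y842.EL.One

/-!
# Möbius disjointness at almost all scales for automorphisms of C*-algebras with singular invariant spectra
-/

set_option autoImplicit false

open Filter Topology Finset MeasureTheory

namespace Pool.Agent.Results.MP_7a8f48_an.SingularInvariantSpectra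

universe u v

open Classical in
/-- `E` has logarithmic density zero -/
def LogDensityZero (E : Set ℕ) : Prop := Tendsto
  (fun X : ℕ => (∑ n ∈ Icc 1 X, if n ∈ E then (1 : ℝ) / n else 0) / Real.log X) atTop (𝓝 0)

/-- the Möbius function -/
def mu (n : ℕ) : ℤ := ArithmeticFunction.moebius n

/-- the Liouville function -/
def lam (n : ℕ) : ℤ := (-1) ^ ArithmeticFunction.cardFactors n

section defs

variable {A : Type u} [NonUnitalCStarAlgebra A]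

/-- positive functionals -/
def Positive (φ : A →L[ℂ] ℂ) : Prop := ∀ a, 0 ≤ (φ (star a * a)).re ∧ (φ (star a * a)).im = 0

/-- `φ` is invariant under the automorphism `α` -/
def Invariant (α : A ≃⋆ₐ[ℂ] A) (φ : A →L[ℂ] ℂ) : Prop := ∀ a, φ (α a) = φ a

/-- `φ` is a weak* cluster point, for `N → ∞`, of the averages `(1/N) ∑_{n ≤ N} ρ ∘ αⁿ` of the elements `ρ` of
`R` -/
def ClusterPoint (α : A ≃⋆ₐ[ℂ] A) (R : Set (A → ℂ)) (φ : A →L[ℂ] ℂ) : Prop :=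
  ∀ (F : Finset A) (ε : ℝ), 0 < ε → ∀ N₀ : ℕ, ∃ N ≥ N₀, ∃ ρ ∈ R, ∀ a ∈ F,
    ‖(1 / (N : ℂ)) * ∑ n ∈ Icc 1 N, ρ ((α ^ n) a) - φ a‖ < ε

/-- `σ` is the spectral measure of `x` for the invariant positive functional `φ`: the finite measure on
`ℝ/ℤ` with `φ (x* αᵏ(x)) = ∫ exp(2 π i k η) dσ(η)` for `k ≥ 0` -/
def IsSpectralMeasure (α : A ≃⋆ₐ[ℂ] A) (φ : A →L[ℂ] ℂ) (x : A) (σ : Measure UnitAddCircle) : Prop :=
  IsFiniteMeasure σ ∧ ∀ k : ℕ, φ (star x * (α ^ k) x) = ∫ η, (fourier (k : ℤ) η : ℂ) ∂σ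

/-- the spectral measure of `x` for `φ` is singular with respect to the Lebesgue measure -/
def SingularAt (α : A ≃⋆ₐ[ℂ] A) (φ : A →L[ℂ] ℂ) (x : A) : Prop :=
  ∃ σ : Measure UnitAddCircle, IsSpectralMeasure α φ x σ ∧ σ ⟂ₘ (volume : Measure UnitAddCircle)

end defs

/-- the sum of `h m e(mθ) y m` over the `m` in `S`, where `e(t) = exp(2 π i t)` -/
noncomputable def twistedSum {X : Type v} [NormedAddCommGroup X] [NormedSpace ℂ X] (h : ℕ → ℤ) (θ : ℝ)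
    (S : Finset ℕ) (y : ℕ → X) : X :=
  ∑ m ∈ S, ((h m : ℂ) * Complex.exp (2 * Real.pi * Complex.I * m * θ)) • y m

/-- The sequences `y i` are disjoint from `h` outside `E`, uniformly in `i` and in the twist: (1) in mean square
over the windows of length `H`, (2) for the long averages, and (3) in logarithmic mean (for all `N`). -/
def UniformlyDisjoint {ι : Type u} {X : Type v} [NormedAddCommGroup X] [NormedSpace ℂ X] (E : Set ℕ) (h : ℕ → ℤ)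
    (y : ι → ℕ → X) : Prop :=
  ∀ ε : ℝ, 0 < ε →
    (∃ H0 : ℕ, ∀ H ≥ H0, ∀ N ≥ H0 * H, N ∉ E → ∀ (θ : ℝ) (i : ι),
      ∑ n ∈ range N, ‖twistedSum h θ (Ioc n (n + H)) (y i)‖ ^ 2 ≤ ε * H ^ 2 * N) ∧
    (∃ N0 : ℕ, ∀ N ≥ N0, N ∉ E → ∀ (θ : ℝ) (i : ι), ‖twistedSum h θ (Icc 1 N) (y i)‖ ≤ ε * N) ∧
    ∃ N0 : ℕ, ∀ N ≥ N0, ∀ (θ : ℝ) (i : ι),
      ‖twistedSum h θ (Icc 1 N) (fun m => (1 / (m : ℂ)) • y i m)‖ ≤ ε * Real.log N

/-- the twisted sum of `αᵐ(x)` over the `m` in `S` -/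
noncomputable def orbitSum {A : Type u} [NonUnitalCStarAlgebra A] (α : A ≃⋆ₐ[ℂ] A) (h : ℕ → ℤ) (θ : ℝ)
    (S : Finset ℕ) (x : A) : A :=
  twistedSum h θ S (fun m => (α ^ m) x)

/-- the sum of `W(n)* W(n)` over `n < N`, where `W(n)` is the twisted sum over the window `(n, n + H]` -/
noncomputable def windowSquares {A : Type u} [NonUnitalCStarAlgebra A] (α : A ≃⋆ₐ[ℂ] A) (h : ℕ → ℤ) (θ : ℝ)
    (H N : ℕ) (x : A) : A :=
  ∑ n ∈ range N, star (orbitSum α h θ (Ioc n (n + H)) x) * orbitSum α h θ (Ioc n (n + H)) x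

/-- The orbit of `x` is disjoint from `h` in norm outside `E`, uniformly in the twist: (1) the mean squares
`∑_{n < N} W(n)* W(n)` over the windows of length `H` are small in norm, (2) the long averages tend to zero in
norm, and (3) so do the logarithmic averages (for all `N`). -/
def NormDisjoint (E : Set ℕ) {A : Type u} [NonUnitalCStarAlgebra A] (α : A ≃⋆ₐ[ℂ] A) (h : ℕ → ℤ) (x : A) : Prop :=
  ∀ ε : ℝ, 0 < ε →
    (∃ H0 : ℕ, ∀ H ≥ H0, ∀ N ≥ H0 * H, N ∉ E → ∀ θ : ℝ,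
      ‖windowSquares α h θ H N x‖ ≤ ε * H ^ 2 * N) ∧
    (∃ N0 : ℕ, ∀ N ≥ N0, N ∉ E → ∀ θ : ℝ, ‖orbitSum α h θ (Icc 1 N) x‖ ≤ ε * N) ∧
    ∃ N0 : ℕ, ∀ N ≥ N0, ∀ θ : ℝ,
      ‖twistedSum h θ (Icc 1 N) (fun m => (1 / (m : ℂ)) • (α ^ m) x)‖ ≤ ε * Real.log N

/-- uniform disjointness from the Möbius and the Liouville function -/
def Disjoint' {ι : Type u} {X : Type v} [NormedAddCommGroup X] [NormedSpace ℂ X] (E : Set ℕ) (y : ι → ℕ → X) : Prop :=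
  UniformlyDisjoint E mu y ∧ UniformlyDisjoint E lam y

/-- the vector functionals `a ↦ ⟨ξ, π(a) ξ⟩` of the `ξ` in `Ξ` -/
def VectorFunctionals {A : Type u} [NonUnitalCStarAlgebra A] {K : Type v} [NormedAddCommGroup K]
    [InnerProductSpace ℂ K] [CompleteSpace K] (π : A →⋆ₙₐ[ℂ] (K →L[ℂ] K)) (Ξ : Set K) : Set (A → ℂ) :=
  {ρ | ∃ ξ ∈ Ξ, ρ = fun a => (inner ℂ ξ (π a ξ) : ℂ)}

/-- the functionals in `S`, as functions -/
def Functions {B : Type u} [CStarAlgebra B] (S : Set (B →L[ℂ] ℂ)) : Set (B → ℂ) := {r | ∃ ρ ∈ S, r = ⇑ρ}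

/-- the sequences `ρ(b βⁿ(x))`, for `ρ` in `S` and `b` in the unit ball -/
noncomputable def Values {B : Type u} [CStarAlgebra B] (β : B ≃⋆ₐ[ℂ] B) (S : Set (B →L[ℂ] ℂ)) (x : B)
    (p : S × {b : B // ‖b‖ ≤ 1}) (n : ℕ) : ℂ :=
  p.1.1 (p.2.1 * (β ^ n) x)

/-- (A) Let `Ξ` be a bounded set of vectors of a representation `π` and let `D` be a set of elements whose spectral
measures are singular for each invariant cluster point of the averages of the vector functionals of the `ξ` in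
`Ξ`. Then the sequences of vectors `π(αⁿ(x)) ξ` are disjoint outside `E`, uniformly for `ξ` in `Ξ`, for each `x` in
the closed span of `D`. -/
def PartA (E : Set ℕ) {A : Type u} [NonUnitalCStarAlgebra A] (α : A ≃⋆ₐ[ℂ] A) : Prop :=
  ∀ (K : Type v) [NormedAddCommGroup K] [InnerProductSpace ℂ K] [CompleteSpace K]
    (π : A →⋆ₙₐ[ℂ] (K →L[ℂ] K)) (Ξ : Set K) (R : ℝ) (D : Set A), (∀ ξ ∈ Ξ, ‖ξ‖ ≤ R) →
    (∀ φ : A →L[ℂ] ℂ, Positive φ → Invariant α φ →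
      ClusterPoint α (VectorFunctionals π Ξ) φ → ∀ x ∈ D, SingularAt α φ x) →
    ∀ x ∈ closure (Submodule.span ℂ D : Set A),
      Disjoint' E (fun (ξ : Ξ) n => π ((α ^ n) x) ξ.1)

/-- (B) Let `S` be a bounded set of positive functionals on a unital algebra and let `D` be a set of elements whose
spectral measures are singular for each invariant cluster point of the averages of the `ρ` in `S`. Then
`ρ(b αⁿ(x))` is disjoint outside `E`, uniformly for `ρ` in `S` and `b` in the unit ball, for each `x` in the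
closed span of `D`. -/
def PartB (E : Set ℕ) {B : Type u} [CStarAlgebra B] (β : B ≃⋆ₐ[ℂ] B) : Prop :=
  ∀ (S : Set (B →L[ℂ] ℂ)) (R : ℝ) (D : Set B), (∀ ρ ∈ S, Positive ρ ∧ ‖ρ‖ ≤ R) →
    (∀ φ : B →L[ℂ] ℂ, Positive φ → Invariant β φ → ClusterPoint β (Functions S) φ →
      ∀ x ∈ D, SingularAt β φ x) →
    ∀ x ∈ closure (Submodule.span ℂ D : Set B),
      Disjoint' E (Values β S x)

/-- (C) Let `D` be a set with dense span, such that the spectral measures of the elements of `D` are singular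
for each invariant positive functional. Then the orbit of each element is disjoint in norm outside `E`. -/
def PartC (E : Set ℕ) {A : Type u} [NonUnitalCStarAlgebra A] (α : A ≃⋆ₐ[ℂ] A) : Prop :=
  ∀ D : Set A, Dense (Submodule.span ℂ D : Set A) →
    (∀ φ : A →L[ℂ] ℂ, Positive φ → Invariant α φ → ∀ x ∈ D, SingularAt α φ x) →
    ∀ x : A, NormDisjoint E α mu x ∧ NormDisjoint E α lam x

open Pool.Agent.R296.SM

theorem range_le {h : ℕ → ℤ} (hh : ∀ n, |h n| ≤ 1) : ∀ g ∈ Set.range (tws h), ∀ n, ‖g n‖ ≤ 1 := by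
  rintro _ ⟨θ, rfl⟩ n
  exact norm_tws hh θ n

theorem log_of {E : Set ℕ} (hE : LDZ E) {f : ℕ → ℤ} (hf : ∀ n, |f n| ≤ 1) {ι : Type u} {X : Type v}
    [NormedAddCommGroup X] [NormedSpace ℂ X] {y : ι → ℕ → X} {M : ℝ} (hM : ∀ i n, ‖y i n‖ ≤ M)
    (h : ∀ ε : ℝ, 0 < ε → ∃ N0 : ℕ, ∀ N ≥ N0, N ∉ E → ∀ (θ : ℝ) (i : ι), ‖twistedSum f θ (Icc 1 N) (y i)‖ ≤ ε * N)
    (ε : ℝ) (hε : 0 < ε) : ∃ N0 : ℕ, ∀ N ≥ N0, ∀ (θ : ℝ) (i : ι),
      ‖twistedSum f θ (Icc 1 N) (fun m => (1 / (m : ℂ)) • y i m)‖ ≤ ε * Real.log N := by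
  obtain ⟨N₀, h3⟩ := logmean hE (M := M)
    (𝓕 := {a : ℕ → X | ∃ (θ : ℝ) (i : ι), a = fun m => ((f m : ℂ) * Complex.exp (2 * Real.pi * Complex.I * m * θ)) • y i m})
    (by
      rintro _ ⟨θ, i, rfl⟩ n
      rw [norm_smul, exp_fourier]
      calc _ ≤ 1 * ‖y i n‖ := mul_le_mul_of_nonneg_right (norm_tws hf (θ : UnitAddCircle) n) (norm_nonneg _)
        _ ≤ M := by rw [one_mul]; exact hM i n)
    (by
      intro ε hε
      obtain ⟨N₀, h4⟩ := h ε hε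
      refine ⟨N₀, ?_⟩
      rintro N hN hNE _ ⟨θ, i, rfl⟩
      exact h4 N hN hNE θ i) ε hε
  refine ⟨N₀, fun N hN θ i => ?_⟩
  refine le_trans (le_of_eq ?_) (h3 N hN _ ⟨θ, i, rfl⟩)
  unfold twistedSum
  congr 1
  exact sum_congr rfl fun m _ => smul_comm _ _ _

theorem disjoint_of_DjU {E : Set ℕ} (hE : LDZ E) {ι : Type u} {K : Type v} [NormedAddCommGroup K]
    [InnerProductSpace ℂ K] {h : ℕ → ℤ} (hh : ∀ n, |h n| ≤ 1) {w : ι → ℤ → K} {M : ℝ} (hM : ∀ i m, ‖w i m‖ ≤ M)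
    (hw : DjU E (Set.range (tws h)) w) (y : ι → ℕ → K) (hy : ∀ i, ∀ n : ℕ, w i n = y i n) :
    UniformlyDisjoint E h y := by
  have hlong : ∀ ε : ℝ, 0 < ε → ∃ N0 : ℕ, ∀ N ≥ N0, N ∉ E → ∀ (θ : ℝ) (i : ι),
      ‖twistedSum h θ (Icc 1 N) (y i)‖ ≤ ε * N := by
    intro ε hε
    obtain ⟨N₀, h2⟩ := hw.long (range_le hh) hM ε hε
    refine ⟨N₀, fun N hN hNE θ i => ?_⟩
    unfold twistedSum
    rw [conv_Icc h θ (w i) (y i) (hy i)]
    exact h2 N hN hNE _ ⟨_, rfl⟩ i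
  intro ε hε
  obtain ⟨H₀, -, h1⟩ := hw ε hε
  refine ⟨⟨H₀, fun H hH N hN hNE θ i => ?_⟩, hlong ε hε,
    log_of hE hh (M := M) (fun i n => by rw [← hy]; exact hM i n) hlong ε hε⟩
  refine le_trans (le_of_eq ?_) (h1 H hH N hN hNE _ ⟨(θ : UnitAddCircle), rfl⟩ i)
  refine sum_congr rfl fun x _ => ?_
  unfold twistedSum
  rw [conv_Ioc h θ (w i) (y i) (hy i)]

/-- the correlations are small outside `E` -/
def Small (E : Set ℕ) (f : ℕ → ℤ) : Prop :=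
  ∀ h : ℕ, 1 ≤ h → ∀ ε : ℝ, 0 < ε → ∃ N₀ : ℕ, ∀ N : ℕ, N₀ ≤ N → N ∉ E → |((Co f h N : ℤ) : ℝ)| ≤ ε * N

theorem DjU_A {E : Set ℕ} {f : ℕ → ℤ} (hf : ∀ n, |f n| ≤ 1) (hS : Small E f) {A : Type u}
    [NonUnitalCStarAlgebra A] (α : A ≃⋆ₐ[ℂ] A) {K : Type v} [NormedAddCommGroup K] [InnerProductSpace ℂ K]
    [CompleteSpace K] (π : A →⋆ₙₐ[ℂ] (K →L[ℂ] K)) {ι : Type v} (Ξ : ι → K) (R : ℝ) (hR : ∀ i, ‖Ξ i‖ ≤ R) (D : Set A)
    (hD : ∀ φ : A →L[ℂ] ℂ, Positive φ → Invariant α φ → CluU α (fun i => rr π (Ξ i)) φ → ∀ x ∈ D, SingularAt α φ x)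
    (x : A) (hx : x ∈ closure (Submodule.span ℂ D : Set A)) :
    DjU E (Set.range (tws f)) (fun i => yy α π (Ξ i) x) := by
  refine DjU_closure α hR (range_le hf) (fun u hu => ?_) hx
  refine DjU_orbit α hR E _ (range_le hf) u fun φ h1 h2 h3 => ?_
  obtain ⟨σ, ⟨hσ1, hσ2⟩, hσ3⟩ := hD φ (fun a => by
    obtain ⟨e1, e2⟩ := Complex.nonneg_iff.1 (h1 a)
    exact ⟨e1, e2.symm⟩) h2 h3 u hu
  exact ⟨σ, hσ1, hσ2, fun δ hδ => iso_sing hf hS hσ3 δ hδ⟩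

theorem partA_of {E : Set ℕ} (hE : LDZ E) {f : ℕ → ℤ} (hf : ∀ n, |f n| ≤ 1) (hS : Small E f) {A : Type u}
    [NonUnitalCStarAlgebra A]
    (α : A ≃⋆ₐ[ℂ] A) (K : Type v) [NormedAddCommGroup K] [InnerProductSpace ℂ K] [CompleteSpace K]
    (π : A →⋆ₙₐ[ℂ] (K →L[ℂ] K)) (Ξ : Set K) (R : ℝ) (D : Set A) (hR : ∀ ξ ∈ Ξ, ‖ξ‖ ≤ R)
    (hD : ∀ φ : A →L[ℂ] ℂ, Positive φ → Invariant α φ →
      ClusterPoint α (VectorFunctionals π Ξ) φ → ∀ x ∈ D, SingularAt α φ x)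
    (x : A) (hx : x ∈ closure (Submodule.span ℂ D : Set A)) :
    UniformlyDisjoint E f (fun (ξ : Ξ) n => π ((α ^ n) x) ξ.1) := by
  have hR' : ∀ ξ : Ξ, ‖ξ.1‖ ≤ R := fun ξ => hR ξ.1 ξ.2
  have h1 := DjU_A hf hS α π (fun ξ : Ξ => ξ.1) R hR' D (fun φ h1 h2 h3 => hD φ h1 h2 (by
    intro F ε hε N₀
    obtain ⟨N, hN, i, hi⟩ := h3 F ε hε N₀
    exact ⟨N, hN, _, ⟨i.1, i.2, rfl⟩, hi⟩)) x hx
  refine disjoint_of_DjU hE hf (M := R * ‖x‖) (fun ξ m => ?_) h1 _ fun ξ n => ?_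
  · exact (yy_le α π ξ.1 x m).trans (mul_le_mul_of_nonneg_right (hR' ξ) (norm_nonneg _))
  · simp [yy]

theorem partB_of {E : Set ℕ} (hE : LDZ E) {f : ℕ → ℤ} (hf : ∀ n, |f n| ≤ 1) (hS : Small E f) {B : Type u}
    [CStarAlgebra B]
    (β : B ≃⋆ₐ[ℂ] B) (S : Set (B →L[ℂ] ℂ)) (R : ℝ) (D : Set B) (hR : ∀ ρ ∈ S, Positive ρ ∧ ‖ρ‖ ≤ R)
    (hD : ∀ φ : B →L[ℂ] ℂ, Positive φ → Invariant β φ → ClusterPoint β (Functions S) φ →
      ∀ x ∈ D, SingularAt β φ x) (x : B) (hx : x ∈ closure (Submodule.span ℂ D : Set B)) :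
    UniformlyDisjoint E f (Values β S x) := by
  obtain ⟨K, _, _, _, π, ξ, hξ⟩ := exists_gnsU B S (fun ρ hρ a => by
    obtain ⟨e1, e2⟩ := (hR ρ hρ).1 a
    exact Complex.nonneg_iff.2 ⟨e1, e2.symm⟩)
  have hone : ‖(1 : B)‖ ≤ 1 := by
    rcases subsingleton_or_nontrivial B with h | h
    · rw [Subsingleton.elim (1 : B) 0, norm_zero]; norm_num
    · rw [CStarRing.norm_one]
  have hn : ∀ ρ : S, ‖ξ ρ‖ ≤ R + 1 := by
    intro ρ
    have h1 : (inner ℂ (ξ ρ) (ξ ρ) : ℂ) = ρ.1 1 := by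
      have := hξ ρ 1
      rw [map_one] at this
      exact this
    rw [inner_self_eq_norm_sq_to_K] at h1
    have h2 : ‖ξ ρ‖ ^ 2 = ‖ρ.1 1‖ := by
      rw [← h1]
      norm_cast
      rw [abs_of_nonneg (sq_nonneg _)]
    have h3 : ‖ρ.1 1‖ ≤ R := by
      refine (ρ.1.le_opNorm 1).trans ?_
      calc ‖ρ.1‖ * ‖(1 : B)‖ ≤ ‖ρ.1‖ * 1 := mul_le_mul_of_nonneg_left hone (norm_nonneg _)
        _ ≤ R := by rw [mul_one]; exact (hR ρ.1 ρ.2).2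
    nlinarith [norm_nonneg (ξ ρ), sq_nonneg (‖ξ ρ‖ - 1)]
  have h1 := DjU_A hf hS β (π : B →⋆ₙₐ[ℂ] (K →L[ℂ] K)) ξ (R + 1) hn D (fun φ h1 h2 h3 => hD φ h1 h2 (by
    intro F ε hε N₀
    obtain ⟨N, hN, i, hi⟩ := h3 F ε hε N₀
    refine ⟨N, hN, _, ⟨i.1, i.2, rfl⟩, fun a ha => ?_⟩
    have h4 : ‖av β (rr (π : B →⋆ₙₐ[ℂ] (K →L[ℂ] K)) (ξ i)) N a - φ a‖ < ε := hi a ha
    have h5 : rr (π : B →⋆ₙₐ[ℂ] (K →L[ℂ] K)) (ξ i) = ⇑i.1 := by
      funext a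
      exact hξ i a
    rw [h5] at h4
    exact h4)) x hx
  have hb : ∀ p : S × {b : B // ‖b‖ ≤ 1}, ‖π (star p.2.1) (ξ p.1)‖ ≤ R + 1 := by
    intro p
    refine (pi_le (π : B →⋆ₙₐ[ℂ] (K →L[ℂ] K)) (ξ p.1) _).trans ?_
    rw [norm_star]
    have h2 : ‖p.2.1‖ ≤ 1 := p.2.2
    calc ‖ξ p.1‖ * ‖p.2.1‖ ≤ ‖ξ p.1‖ * 1 := mul_le_mul_of_nonneg_left h2 (norm_nonneg _)
      _ ≤ R + 1 := by rw [mul_one]; exact hn p.1
  refine disjoint_of_DjU hE hf (M := (R + 1) * ((R + 1) * ‖x‖)) (fun p m => ?_)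
    (h1.map (fun p : S × {b : B // ‖b‖ ≤ 1} => p.1) (fun p => π (star p.2.1) (ξ p.1)) (R + 1) hb) _
    fun p n => ?_
  · refine (norm_inner_le_norm _ _).trans (mul_le_mul (hb p) ?_ (norm_nonneg _) ((norm_nonneg _).trans (hb p)))
    exact (yy_le β (π : B →⋆ₙₐ[ℂ] (K →L[ℂ] K)) (ξ p.1) x m).trans (mul_le_mul_of_nonneg_right (hn p.1) (norm_nonneg _))
  · simp only [yy, Int.toNat_natCast, Values]
    rw [← hξ, map_mul, map_star]
    show inner ℂ _ (π ((β ^ n) x) (ξ p.1)) = inner ℂ (ξ p.1) ((π p.2.1) (π ((β ^ n) x) (ξ p.1)))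
    rw [ContinuousLinearMap.star_eq_adjoint, ContinuousLinearMap.adjoint_inner_left]

theorem norm_of {E : Set ℕ} (hE : LDZ E) {f : ℕ → ℤ} (hf : ∀ n, |f n| ≤ 1) (hS : Small E f) {A : Type u}
    [NonUnitalCStarAlgebra A] (α : A ≃⋆ₐ[ℂ] A) (D : Set A)
    (hD : ∀ φ : A →L[ℂ] ℂ, Positive φ → Invariant α φ → ∀ x ∈ D, SingularAt α φ x)
    (x : A) (hx : x ∈ closure (Submodule.span ℂ D : Set A)) : NormDisjoint E α f x := by
  obtain ⟨K, _, _, _, π, hπ⟩ := exists_faithful A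
  have h1 := DjU_A hf hS α π (fun ξ : {ξ : K // ‖ξ‖ ≤ 1} => ξ.1) 1 (fun ξ => ξ.2) D
    (fun φ h1 h2 _ => hD φ h1 h2) x hx
  have hM : ∀ (ξ : {ξ : K // ‖ξ‖ ≤ 1}) (m : ℤ), ‖yy α π ξ.1 x m‖ ≤ 1 * ‖x‖ := fun ξ m =>
    (yy_le α π ξ.1 x m).trans (mul_le_mul_of_nonneg_right ξ.2 (norm_nonneg _))
  have hpi : ∀ (S : Finset ℕ) (θ : ℝ) (ξ : K), π (twistedSum f θ S (fun m => (α ^ m) x)) ξ =
      ∑ m ∈ S, ((f m : ℂ) * Complex.exp (2 * Real.pi * Complex.I * m * θ)) • π ((α ^ m) x) ξ := by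
    intro S θ ξ
    unfold twistedSum
    rw [map_sum, _root_.sum_apply]
    exact sum_congr rfl fun m _ => by rw [map_smul]; rfl
  have hlong : ∀ ε : ℝ, 0 < ε → ∃ N0 : ℕ, ∀ N ≥ N0, N ∉ E → ∀ (θ : ℝ) (_ : PUnit.{1}),
      ‖twistedSum f θ (Icc 1 N) (fun m => (α ^ m) x)‖ ≤ ε * N := by
    intro ε hε
    obtain ⟨N₀, h3⟩ := h1.long (range_le hf) hM ε hε
    refine ⟨N₀, fun N hN hNE θ _ => ?_⟩
    rw [← hπ]
    refine norm_op_le _ _ (by positivity) fun ξ hξ => ?_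
    rw [hpi, conv_Icc f θ (yy α π ξ x) _ (fun n => by simp [yy])]
    exact h3 N hN hNE _ ⟨(θ : UnitAddCircle), rfl⟩ ⟨ξ, hξ⟩
  intro ε hε
  obtain ⟨H₀, -, h2⟩ := h1 ε hε
  refine ⟨⟨H₀, fun H hH N hN hNE θ => ?_⟩, ?_, ?_⟩
  · rw [← hπ, windowSquares, map_sum]
    simp_rw [map_mul, map_star]
    refine norm_sq_ops _ _ _ (by positivity) fun ξ hξ => ?_
    refine le_trans (le_of_eq ?_) (h2 H hH N hN hNE _ ⟨(θ : UnitAddCircle), rfl⟩ ⟨ξ, hξ⟩)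
    refine sum_congr rfl fun n _ => ?_
    rw [orbitSum, hpi, conv_Ioc f θ (yy α π ξ x) _ (fun n => by simp [yy])]
  · obtain ⟨N₀, h3⟩ := hlong ε hε
    exact ⟨N₀, fun N hN hNE θ => h3 N hN hNE θ ⟨⟩⟩
  · obtain ⟨N₀, h3⟩ := log_of hE hf (ι := PUnit.{1}) (y := fun _ m => (α ^ m) x) (M := ‖x‖)
      (fun _ n => (norm_pow_apply α n x).le) hlong ε hε
    exact ⟨N₀, fun N hN θ => h3 N hN θ ⟨⟩⟩

theorem small_of {E F : Set ℕ} {f : ℕ → ℤ} (h : ∀ h : ℕ, 1 ≤ h → ∀ ε : ℝ, 0 < ε → ∃ N₀ : ℕ, ∀ N : ℕ, N₀ ≤ N →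
    N ∉ E → ∀ α : ℝ, ‖Pool.Agent.Y842.PH.Cr f h N α‖ ≤ ε * N) (hEF : E ⊆ F) : Small F f := by
  intro k hk ε hε
  obtain ⟨N₀, h1⟩ := h k hk ε hε
  refine ⟨N₀, fun N hN hNE => ?_⟩
  have h2 := h1 N hN (fun h3 => hNE (hEF h3)) 0
  refine le_trans (le_of_eq ?_) h2
  have : Pool.Agent.Y842.PH.Cr f k N 0 = ((Co f k N : ℤ) : ℂ) := by
    unfold Pool.Agent.Y842.PH.Cr Co
    push_cast
    refine sum_congr rfl fun n _ => ?_
    rw [zero_mul]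
    simp [Pool.Agent.Helper602.MK.ee]
  rw [this, Complex.norm_intCast]

/-- **Möbius disjointness at almost all scales for automorphisms of C*-algebras with singular invariant
spectra.** There is one set `E` of logarithmic density zero such that (A), (B), (C) hold for all automorphisms
of all C*-algebras. -/
theorem result : ∃ E : Set ℕ, LogDensityZero E ∧
    (∀ (A : Type u) [NonUnitalCStarAlgebra A] (α : A ≃⋆ₐ[ℂ] A), PartA.{u, v} E α ∧ PartC.{u} E α) ∧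
    ∀ (B : Type u) [CStarAlgebra B] (β : B ≃⋆ₐ[ℂ] B), PartB.{u} E β := by
  obtain ⟨E₁, hE₁, h1⟩ := Pool.Agent.Y842.PH.one_E (Pool.Agent.Y304.U.avc Pool.Agent.Y304.U.pw)
    Pool.Agent.TH823.MRS.mob Pool.Agent.TH823.MRS.mob_bdd Pool.Agent.TH823.MRS.mob_flip
    Pool.Agent.TH823.MRS.expo_mob
  obtain ⟨E₂, hE₂, h2⟩ := Pool.Agent.Y842.PH.one_E (Pool.Agent.Y304.U.avc Pool.Agent.Y304.U.pw)
    Pool.Agent.H376R2.MR.lam Pool.Agent.Y842.EL.abs_lam Pool.Agent.TH823.MRS.lam_flip Pool.Agent.TH823.MRS.expo_lam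
  have hE : LogDensityZero (E₁ ∪ E₂) := Pool.Agent.Y842.EL.LZ_union hE₁ hE₂
  have hmu : ∀ n, |mu n| ≤ 1 := fun n => ArithmeticFunction.abs_moebius_le_one
  have hlam : ∀ n, |lam n| ≤ 1 := fun n => by
    unfold lam
    rw [abs_pow, abs_neg, abs_one, one_pow]
  have s1 : Small (E₁ ∪ E₂) mu := small_of h1 Set.subset_union_left
  have s2 : Small (E₁ ∪ E₂) lam := small_of h2 Set.subset_union_right
  refine ⟨E₁ ∪ E₂, hE, fun A _ α => ⟨fun K _ _ _ π Ξ R D hR hD x hx => ?_, fun D hD hφ x => ?_⟩,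
    fun B _ β S R D hR hD x hx => ?_⟩
  · exact ⟨partA_of hE hmu s1 α K π Ξ R D hR hD x hx, partA_of hE hlam s2 α K π Ξ R D hR hD x hx⟩
  · exact ⟨norm_of hE hmu s1 α D hφ x (hD x), norm_of hE hlam s2 α D hφ x (hD x)⟩
  · exact ⟨partB_of hE hmu s1 β S R D hR hD x hx, partB_of hE hlam s2 β S R D hR hD x hx⟩

end Pool.Agent.Results.MP_7a8f48_an.SingularInvariantSpectra
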